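import Pool.Agent.Helper785_SP.Per
import Pool.Agent.Helper785_BG.Cyl
import Pool.Agent.NPC.Num

/-!
# Coding the patterns with a fixed periodic surrounding by bit strings
-/

set_option autoImplicit false

namespace Pool.Agent.Helper785.SP

open Pool.Agent.Helper785.SIEnt Filter
open Pool.Agent.Helper785.BG (dg dg_enc eq_of_dg)
open Pool.Agent.NPC (valB valB_lt)

theorem exists_valB : ∀ (m W : ℕ), W < 2 ^ m → ∃ w : List Bool, w.length = m ∧ valB w = W := by
  intro m
  induction m with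
  | zero => intro W hW; exact ⟨[], rfl, by simp at hW; simp [hW]⟩
  | succ m ih =>
    intro W hW
    obtain ⟨w, h1, h2⟩ := ih (W / 2) (by rw [pow_succ] at hW; omega)
    refine ⟨decide (W % 2 = 1) :: w, by simp [h1], ?_⟩
    rw [NPC.valB_cons, h2]
    have := Nat.mod_add_div W 2
    rcases Nat.mod_two_eq_zero_or_one W with h | h
    · simp [h]; omega
    · simp [h]; omega

theorem valB_inj : ∀ (w w' : List Bool), w.length = w'.length → valB w = valB w' → w = w'
  | [], [], _, _ => rfl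
  | [], b :: w', h, _ => by simp at h
  | b :: w, [], h, _ => by simp at h
  | b :: w, b' :: w', h, h2 => by
    rw [NPC.valB_cons, NPC.valB_cons] at h2
    have h3 : b = b' ∧ valB w = valB w' := by
      cases b <;> cases b' <;> simp at h2 ⊢ <;> omega
    rw [h3.1, valB_inj w w' (by simpa using h) h3.2]

variable {d : ℕ} {A : Type} {k : ℕ}

/-- The number with the digits `t i` in base `n`. -/
def idx (n : ℕ) (t : Fin d → ℕ) : ℕ := ∑ i, t i * n ^ (i : ℕ)

theorem idx_eq {n : ℕ} (t : Fin d → ℕ) (ht : ∀ i, t i < n) :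
    idx n t = ((finFunctionFinEquiv (fun i => (⟨t i, ht i⟩ : Fin n)) : Fin (n ^ d)) : ℕ) := by
  rw [finFunctionFinEquiv_apply]
  rfl

theorem dg_idx {n : ℕ} (t : Fin d → ℕ) (ht : ∀ i, t i < n) (i : Fin d) :
    dg n (idx n t) i = t i := by
  rw [idx_eq t ht, dg_enc]

theorem idx_lt {n : ℕ} (t : Fin d → ℕ) (ht : ∀ i, t i < n) : idx n t < n ^ d := by
  rw [idx_eq t ht]
  exact Fin.is_lt _

theorem idx_dg {n : ℕ} (q : ℕ) (hq : q < n ^ d) :
    idx n (fun i : Fin d => dg n q i) = q := by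
  have hn : ∀ i : Fin d, dg n q i < n := by
    intro i
    refine Nat.mod_lt _ ?_
    rcases Nat.eq_zero_or_pos n with h | h
    · subst h
      have : 0 < d := i.pos
      rw [Nat.zero_pow this] at hq
      omega
    · exact h
  have h1 := eq_of_dg (k := n) (n := d) ⟨idx n (fun i : Fin d => dg n q i), idx_lt _ hn⟩ ⟨q, hq⟩
    (fun i hi => dg_idx _ hn ⟨i, hi⟩)
  exact congrArg Fin.val h1

/-- The letter with the number `j`. -/
noncomputable def dec (e : A ≃ Fin k) (a0 : A) (j : ℕ) : A :=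
  if h : j < k then e.symm ⟨j, h⟩ else a0

theorem dec_eq_iff (e : A ≃ Fin k) (a0 : A) {j : ℕ} (hj : j < k) (a : A) :
    dec e a0 j = a ↔ j = (e a : ℕ) := by
  unfold dec
  rw [dif_pos hj, Equiv.symm_apply_eq, Fin.ext_iff]

/-- The configuration coded by the number `W` on the cube, and equal to `x0` outside. -/
noncomputable def conf (e : A ≃ Fin k) (x0 : (Fin d → ℤ) → A) (n W : ℕ) : (Fin d → ℤ) → A :=
  fun v => if ∀ i, 0 ≤ v i ∧ v i < (n : ℤ) then
    dec e (x0 0) (dg (2 ^ k) W (idx n (fun i => (v i).toNat))) else x0 v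

open Classical in
/-- Testing one letter of the configuration. -/
noncomputable def tst (e : A ≃ Fin k) (x0 : (Fin d → ℤ) → A) (P0 R n W : ℕ) (u : Fin d → ℕ)
    (s : Fin d → ℤ) (a : A) : Bool :=
  if ∀ i, 2 * R ≤ u i + (s i + R).toNat ∧ u i + (s i + R).toNat < n + 2 * R then
    decide (dg (2 ^ k) W (idx n (fun i => u i + (s i + R).toNat - 2 * R)) = (e a : ℕ))
  else decide (x0 (fun i => (((u i + (s i + R).toNat) % P0 : ℕ) : ℤ) - 2 * R) = a)

theorem tst_iff (e : A ≃ Fin k) {x0 : (Fin d → ℤ) → A} {P0 : ℕ} (hper : IsPer P0 x0) (R n W : ℕ)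
    (hW : ∀ q < n ^ d, dg (2 ^ k) W q < k) (u : Fin d → ℕ) (s : Fin d → ℤ)
    (hs : ∀ i, |s i| ≤ (R : ℤ)) (a : A) :
    tst e x0 P0 R n W u s a = true ↔ conf e x0 n W (fun i => (u i : ℤ) - R + s i) = a := by
  classical
  have ht : ∀ i, ((u i + (s i + R).toNat : ℕ) : ℤ) = (u i : ℤ) - R + s i + 2 * R := by
    intro i
    have := abs_le.1 (hs i)
    omega
  have hiff : (∀ i, 2 * R ≤ u i + (s i + R).toNat ∧ u i + (s i + R).toNat < n + 2 * R) ↔
      (∀ i, 0 ≤ (u i : ℤ) - R + s i ∧ (u i : ℤ) - R + s i < (n : ℤ)) := by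
    refine forall_congr' fun i => ?_
    have := ht i
    omega
  unfold tst conf
  by_cases h : ∀ i, 2 * R ≤ u i + (s i + R).toNat ∧ u i + (s i + R).toNat < n + 2 * R
  · rw [if_pos h, if_pos (hiff.1 h)]
    have hi : (fun i => u i + (s i + R).toNat - 2 * R) =
        (fun i => ((u i : ℤ) - R + s i).toNat) := by
      funext i
      have := ht i
      have := h i
      omega
    rw [hi, dec_eq_iff]
    · simp
    · refine hW _ (idx_lt _ (fun i => ?_))
      have h5 := (hiff.1 h) i
      show ((u i : ℤ) - R + s i).toNat < n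
      omega
  · rw [if_neg h, if_neg (fun h' => h (hiff.2 h'))]
    have h1 := hper (fun i => (((u i + (s i + R).toNat) % P0 : ℕ) : ℤ) - 2 * R)
      (fun i => (((u i + (s i + R).toNat) / P0 : ℕ) : ℤ))
    have h2 : (fun i => (((u i + (s i + R).toNat) % P0 : ℕ) : ℤ) - 2 * R +
        (P0 : ℤ) * (((u i + (s i + R).toNat) / P0 : ℕ) : ℤ)) =
        (fun i => (u i : ℤ) - R + s i) := by
      funext i
      have h3 := Nat.mod_add_div (u i + (s i + R).toNat) P0
      have h4 : (((u i + (s i + R).toNat) % P0 : ℕ) : ℤ) +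
        (P0 : ℤ) * (((u i + (s i + R).toNat) / P0 : ℕ) : ℤ) = ((u i + (s i + R).toNat : ℕ) : ℤ) := by
        exact_mod_cast h3
      have := ht i
      linarith
    rw [h2] at h1
    rw [← h1]
    simp

/-- The test whether the number `W` codes a point. -/
noncomputable def good (L : List (Pattern d A)) (e : A ≃ Fin k) (x0 : (Fin d → ℤ) → A)
    (P0 R n W : ℕ) : Bool :=
  (List.range (n ^ d)).all (fun q => decide (dg (2 ^ k) W q < k)) &&
  L.all (fun P => (List.range ((n + 2 * R) ^ d)).all (fun q =>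
    ! P.supp.toList.all (fun s =>
      tst e x0 P0 R n W (fun i => dg (n + 2 * R) q i) s (P.val s))))

theorem good_iff {L : List (Pattern d A)} (e : A ≃ Fin k) {x0 : (Fin d → ℤ) → A}
    (hx0 : x0 ∈ sft L) {P0 : ℕ} (hper : IsPer P0 x0) {R : ℕ}
    (hR : ∀ P ∈ L, ∀ s ∈ P.supp, ∀ i, |s i| ≤ (R : ℤ)) (n W : ℕ) :
    good L e x0 P0 R n W = true ↔
      (∀ q < n ^ d, dg (2 ^ k) W q < k) ∧ conf e x0 n W ∈ sft L := by
  unfold good
  simp only [Bool.and_eq_true, List.all_eq_true, List.mem_range, decide_eq_true_eq,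
    Bool.not_eq_true', Finset.mem_toList, ← Bool.not_eq_true]
  refine and_congr_right fun hW => ?_
  constructor
  · intro h P hP v hocc
    by_cases hin : ∃ s ∈ P.supp, ∀ i, 0 ≤ (v + s) i ∧ (v + s) i < (n : ℤ)
    · obtain ⟨s0, hs0, hin⟩ := hin
      have hv : ∀ i, 0 ≤ v i + R ∧ v i + R < n + 2 * R := by
        intro i
        have h1 := abs_le.1 (hR P hP s0 hs0 i)
        have h2 := hin i
        simp only [Pi.add_apply] at h2
        constructor <;> linarith [h1.1, h1.2, h2.1, h2.2]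
      have hu : ∀ i, (v i + R).toNat < n + 2 * R := by
        intro i
        have := hv i
        omega
      refine h P hP (idx (n + 2 * R) (fun i => (v i + R).toNat)) (idx_lt _ hu) ?_
      intro s hs
      rw [tst_iff e hper R n W hW _ s (hR P hP s hs)]
      rw [← hocc s hs]
      congr 1
      funext i
      rw [dg_idx _ hu i, Int.toNat_of_nonneg (hv i).1]
      simp
    · push Not at hin
      refine hx0 P hP v ?_
      intro s hs
      rw [← hocc s hs]
      unfold conf
      rw [if_neg]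
      intro h'
      obtain ⟨i, hi⟩ := hin s hs
      exact absurd (h' i).2 (not_lt.2 (hi (h' i).1))
  · intro h P hP q hq hall
    refine h P hP (fun i => ((dg (n + 2 * R) q i : ℕ) : ℤ) - R) ?_
    intro s hs
    have := (tst_iff e hper R n W hW _ s (hR P hP s hs) (P.val s)).1 (hall s hs)
    rw [← this]
    rfl

/-- Two numbers with small digits which code the same configuration are equal. -/
theorem conf_inj (e : A ≃ Fin k) (x0 : (Fin d → ℤ) → A) {n W W' : ℕ}
    (hW : ∀ q < n ^ d, dg (2 ^ k) W q < k) (hW' : ∀ q < n ^ d, dg (2 ^ k) W' q < k)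
    (h1 : W < 2 ^ (k * n ^ d)) (h2 : W' < 2 ^ (k * n ^ d))
    (h : ∀ v ∈ cube d n, conf e x0 n W v = conf e x0 n W' v) : W = W' := by
  have hdg : ∀ q < n ^ d, dg (2 ^ k) W q = dg (2 ^ k) W' q := by
    intro q hq
    have hn : ∀ i : Fin d, dg n q i < n := by
      intro i
      refine Nat.mod_lt _ ?_
      rcases Nat.eq_zero_or_pos n with h | h
      · subst h
        have : 0 < d := i.pos
        rw [Nat.zero_pow this] at hq
        omega
      · exact h
    have hv : ∀ i : Fin d, 0 ≤ ((dg n q i : ℕ) : ℤ) ∧ ((dg n q i : ℕ) : ℤ) < (n : ℤ) :=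
      fun i => ⟨by positivity, by exact_mod_cast hn i⟩
    have h3 := h (fun i => ((dg n q i : ℕ) : ℤ)) hv
    unfold conf at h3
    rw [if_pos hv, if_pos hv] at h3
    simp only [Int.toNat_natCast] at h3
    rw [idx_dg q hq] at h3
    have h4 : dec e (x0 0) (dg (2 ^ k) W' q) = e.symm ⟨dg (2 ^ k) W' q, hW' q hq⟩ := by
      unfold dec; rw [dif_pos (hW' q hq)]
    rw [h4, dec_eq_iff e (x0 0) (hW q hq), Equiv.apply_symm_apply] at h3
    exact h3
  have h3 := eq_of_dg (k := 2 ^ k) (n := n ^ d) ⟨W, by rw [← pow_mul]; exact h1⟩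
    ⟨W', by rw [← pow_mul]; exact h2⟩ hdg
  exact congrArg Fin.val h3

/-- Every configuration which agrees with `x0` outside the cube has a code. -/
theorem exists_code (e : A ≃ Fin k) (x0 : (Fin d → ℤ) → A) (n : ℕ) (z : (Fin d → ℤ) → A)
    (hz : ∀ v, v ∉ cube d n → z v = x0 v) :
    ∃ w : List Bool, w.length = k * n ^ d ∧ (∀ q < n ^ d, dg (2 ^ k) (valB w) q < k) ∧
      conf e x0 n (valB w) = z := by
  have hk : k ≤ 2 ^ k := Nat.lt_two_pow_self.le
  set f : Fin (n ^ d) → Fin (2 ^ k) := fun q =>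
    ⟨(e (z (fun i => ((dg n q i : ℕ) : ℤ))) : ℕ), (Fin.is_lt _).trans_le hk⟩ with hf
  obtain ⟨w, h1, h2⟩ := exists_valB (k * n ^ d) (finFunctionFinEquiv f : Fin ((2 ^ k) ^ (n ^ d)))
    (by rw [pow_mul]; exact Fin.is_lt _)
  have h3 : ∀ q (hq : q < n ^ d), dg (2 ^ k) (valB w) q =
      (e (z (fun i => ((dg n q i : ℕ) : ℤ))) : ℕ) := by
    intro q hq
    rw [h2]
    exact dg_enc f ⟨q, hq⟩
  have h4 : ∀ q < n ^ d, dg (2 ^ k) (valB w) q < k := by
    intro q hq
    rw [h3 q hq]
    exact Fin.is_lt _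
  refine ⟨w, h1, h4, ?_⟩
  funext v
  unfold conf
  by_cases hv : ∀ i, 0 ≤ v i ∧ v i < (n : ℤ)
  · rw [if_pos hv]
    have hlt : ∀ i, (v i).toNat < n := by
      intro i
      have := hv i
      omega
    rw [dec_eq_iff e (x0 0) (h4 _ (idx_lt _ hlt)), h3 _ (idx_lt _ hlt)]
    congr 3
    funext i
    rw [dg_idx _ hlt i, Int.toNat_of_nonneg (hv i).1]
  · rw [if_neg hv, hz v hv]

/-- The number of codes of points. -/
noncomputable def codes (L : List (Pattern d A)) (e : A ≃ Fin k) (x0 : (Fin d → ℤ) → A)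
    (P0 R n : ℕ) : ℕ :=
  Nat.card {w : List Bool // w.length = k * n ^ d ∧ good L e x0 P0 R n (valB w) = true}

theorem finite_len (m : ℕ) (Q : List Bool → Prop) :
    Finite {w : List Bool // w.length = m ∧ Q w} := by
  refine Finite.of_injective (β := Fin (2 ^ m))
    (fun w => ⟨valB w.1, by have := valB_lt w.1; rwa [w.2.1] at this⟩) ?_
  intro w w' h
  apply Subtype.ext
  exact valB_inj _ _ (w.2.1.trans w'.2.1.symm) (congrArg Fin.val h)

section

variable [Finite A] {L : List (Pattern d A)} (e : A ≃ Fin k) {x0 : (Fin d → ℤ) → A}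
    (hx0 : x0 ∈ sft L) {P0 : ℕ} (hper : IsPer P0 x0) {R : ℕ}
    (hR : ∀ P ∈ L, ∀ s ∈ P.supp, ∀ i, |s i| ≤ (R : ℤ))

include hx0 hper hR

theorem codes_le (n : ℕ) : codes L e x0 P0 R n ≤ patternCount (sft L) n := by
  rw [patternCount_eq_card]
  refine Nat.card_le_card_of_injective (fun w => ⟨fun v : cube d n => conf e x0 n (valB w.1) v,
    conf e x0 n (valB w.1), ((good_iff e hx0 hper hR n _).1 w.2.2).2, rfl⟩) ?_
  intro w w' h
  have h1 := ((good_iff e hx0 hper hR n _).1 w.2.2).1
  have h2 := ((good_iff e hx0 hper hR n _).1 w'.2.2).1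
  have h3 := congrArg Subtype.val h
  apply Subtype.ext
  refine valB_inj _ _ (w.2.1.trans w'.2.1.symm) (conf_inj e x0 h1 h2 ?_ ?_ ?_)
  · have := valB_lt w.1; rwa [w.2.1] at this
  · have := valB_lt w'.1; rwa [w'.2.1] at this
  · intro v hv
    exact congrFun h3 ⟨v, hv⟩

theorem codes_pos (n : ℕ) : 0 < codes L e x0 P0 R n := by
  obtain ⟨w, h1, h2, h3⟩ := exists_code e x0 n x0 (fun _ _ => rfl)
  have : Finite {w : List Bool // w.length = k * n ^ d ∧ good L e x0 P0 R n (valB w) = true} :=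
    finite_len _ _
  have : Nonempty {w : List Bool // w.length = k * n ^ d ∧ good L e x0 P0 R n (valB w) = true} :=
    ⟨⟨w, h1, (good_iff e hx0 hper hR n _).2 ⟨h2, by rw [h3]; exact hx0⟩⟩⟩
  exact Nat.card_pos

theorem le_codes {M : ℕ} (hM : GlueM (sft L) M) (n : ℕ) :
    patternCount (sft L) n ≤ codes L e x0 P0 R (n + 2 * M) := by
  rw [patternCount_eq_card]
  have hex : ∀ p : pats (sft L) n, ∃ w : {w : List Bool // w.length = k * (n + 2 * M) ^ d ∧
      good L e x0 P0 R (n + 2 * M) (valB w) = true},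
      ∀ v : cube d n, conf e x0 (n + 2 * M) (valB w.1) (fun i => v.1 i + M) = p.1 v := by
    rintro ⟨_, x, hx, rfl⟩
    obtain ⟨z, hz, h1, h2⟩ := hM {v | ∀ i, (M : ℤ) ≤ v i ∧ v i < n + M}
      {v | v ∉ cube d (n + 2 * M)} (by
        intro u hu v hv
        have hv' : ¬ ∀ i, 0 ≤ v i ∧ v i < ((n + 2 * M : ℕ) : ℤ) := hv
        push Not at hv'
        obtain ⟨i, hi⟩ := hv'
        refine ⟨i, ?_⟩
        have hu' := hu i
        push_cast at hi
        rcases lt_or_ge (v i) 0 with h | h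
        · refine le_trans ?_ (le_abs_self _)
          linarith [hu'.1]
        · have := hi h
          rw [abs_sub_comm]
          refine le_trans ?_ (le_abs_self _)
          linarith [hu'.2]) (fun v => x (v + fun _ => -(M : ℤ))) (sft_shift L x hx _) x0 hx0
    obtain ⟨w, h3, h4, h5⟩ := exists_code e x0 (n + 2 * M) z (fun v hv => h2 v hv)
    refine ⟨⟨w, h3, (good_iff e hx0 hper hR _ _).2 ⟨h4, by rw [h5]; exact hz⟩⟩, fun v => ?_⟩
    show conf e x0 (n + 2 * M) (valB w) (fun i => v.1 i + M) = x v.1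
    rw [h5, h1 _ (by
      intro i
      have := v.2 i
      show (M : ℤ) ≤ v.1 i + M ∧ v.1 i + M < n + M
      constructor <;> linarith [this.1, this.2])]
    show x ((fun i => v.1 i + (M : ℤ)) + fun _ => -(M : ℤ)) = x v.1
    congr 1
    funext i
    simp
  choose Φ hΦ using hex
  have : Finite {w : List Bool // w.length = k * (n + 2 * M) ^ d ∧
      good L e x0 P0 R (n + 2 * M) (valB w) = true} := finite_len _ _
  refine Nat.card_le_card_of_injective Φ ?_
  intro p p' h
  apply Subtype.ext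
  funext v
  rw [← hΦ p v, ← hΦ p' v, h]

/-- **The formula.** -/
theorem formula {h : ℝ} (hent : HasEntropy (sft L) h) {M : ℕ} (hM : GlueM (sft L) M)
    (hd : 1 ≤ d) : ∃ C : ℝ, ∀ n : ℕ, 1 ≤ n →
      |h - Real.log (codes L e x0 P0 R n) / (n : ℝ) ^ d| ≤ C / n := by
  have hne : (sft L).Nonempty := ⟨x0, hx0⟩
  have hsh := sft_shift L
  have h0 : 0 ≤ h := by
    have h1 := le_entropy hent hM hsh hne 1 le_rfl
    have h2 : 0 ≤ Real.log (patternCount (sft L) 1) :=
      Real.log_nonneg (by exact_mod_cast patternCount_pos hne 1)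
    by_contra hneg
    push Not at hneg
    have h3 : (0 : ℝ) < (((1 : ℕ) : ℝ) + M) ^ d := by positivity
    nlinarith
  refine ⟨h * (2 * M * d + M * (2 + M) ^ d), fun n hn => ?_⟩
  have hn0 : (0 : ℝ) < n := by exact_mod_cast hn
  have hnd : (0 : ℝ) < (n : ℝ) ^ d := by positivity
  have hcpos : (0 : ℝ) < codes L e x0 P0 R n := by exact_mod_cast codes_pos e hx0 hper hR n
  have hup : Real.log (codes L e x0 P0 R n) / (n : ℝ) ^ d ≤ h + h * (M * (2 + M) ^ d) / n := by
    have h1 : Real.log (codes L e x0 P0 R n) ≤ Real.log (patternCount (sft L) n) :=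
      Real.log_le_log hcpos (by exact_mod_cast codes_le e hx0 hper hR n)
    have h2 := h1.trans (le_entropy hent hM hsh hne n hn)
    have h3 : ∀ j : ℕ, (1 + (M : ℝ) / n) ^ j ≤ 1 + (M : ℝ) / n * (2 + M) ^ j := by
      intro j
      have hx : (0 : ℝ) ≤ (M : ℝ) / n := by positivity
      have hxM : (M : ℝ) / n ≤ M := by
        rw [div_le_iff₀ hn0]
        have : (1 : ℝ) ≤ n := by exact_mod_cast hn
        nlinarith [(Nat.cast_nonneg M : (0 : ℝ) ≤ M)]
      generalize (M : ℝ) / n = x at hx hxM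
      induction j with
      | zero => simp; exact hx
      | succ j ih =>
        have hB : (1 : ℝ) ≤ (2 + (M : ℝ)) ^ j := by
          apply one_le_pow₀
          linarith [(Nat.cast_nonneg M : (0 : ℝ) ≤ M)]
        rw [pow_succ, pow_succ]
        calc (1 + x) ^ j * (1 + x) ≤ (1 + x * (2 + M) ^ j) * (1 + x) := by gcongr
          _ = 1 + x * (1 + (2 + M) ^ j + x * (2 + M) ^ j) := by ring
          _ ≤ 1 + x * (1 + (2 + M) ^ j + M * (2 + M) ^ j) := by gcongr
          _ ≤ 1 + x * ((2 + M) ^ j * (2 + M)) := by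
            have : 1 + (2 + (M : ℝ)) ^ j + M * (2 + M) ^ j ≤ (2 + M) ^ j * (2 + M) := by
              nlinarith
            gcongr
    rw [div_le_iff₀ hnd]
    calc Real.log (codes L e x0 P0 R n) ≤ h * ((n : ℝ) + M) ^ d := h2
      _ = h * (1 + (M : ℝ) / n) ^ d * (n : ℝ) ^ d := by
        rw [mul_assoc, ← mul_pow]
        congr 2
        field_simp
      _ ≤ h * (1 + (M : ℝ) / n * (2 + M) ^ d) * (n : ℝ) ^ d := by
        have := h3 d
        gcongr
      _ = (h + h * (M * (2 + M) ^ d) / n) * (n : ℝ) ^ d := by ring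
  have hlow : h - h * (2 * M * d) / n ≤ Real.log (codes L e x0 P0 R n) / (n : ℝ) ^ d := by
    have hd' : (1 : ℝ) ≤ d := by exact_mod_cast hd
    rcases Nat.lt_or_ge (2 * M) n with hlt | hge
    · obtain ⟨m, hm⟩ := Nat.exists_eq_add_of_lt hlt
      have hm1 : n = (m + 1) + 2 * M := by omega
      have h1 := entropy_le hent hsh hne (m + 1) (by omega)
      have h2 : Real.log (patternCount (sft L) (m + 1)) ≤ Real.log (codes L e x0 P0 R n) := by
        refine Real.log_le_log (by exact_mod_cast patternCount_pos hne _) ?_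
        have := le_codes e hx0 hper hR hM (m + 1)
        rw [← hm1] at this
        exact_mod_cast this
      have h3 : ((m + 1 : ℕ) : ℝ) = n * (1 + -(2 * M / n)) := by
        have : (n : ℝ) = ((m + 1 : ℕ) : ℝ) + 2 * M := by rw [hm1]; push_cast; ring
        field_simp
        linarith
      have hb : -2 ≤ -(2 * (M : ℝ) / n) := by
        have : 2 * (M : ℝ) / n ≤ 1 := by
          rw [div_le_one hn0]
          exact_mod_cast hlt.le
        linarith
      have h4 := one_add_mul_le_pow hb d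
      rw [le_div_iff₀ hnd]
      calc (h - h * (2 * M * d) / n) * (n : ℝ) ^ d
          = h * (1 + (d : ℝ) * -(2 * M / n)) * (n : ℝ) ^ d := by ring
        _ ≤ h * (1 + -(2 * M / n)) ^ d * (n : ℝ) ^ d := by gcongr
        _ = h * ((m + 1 : ℕ) : ℝ) ^ d := by rw [h3, mul_pow]; ring
        _ ≤ _ := h1.trans h2
    · have h1 : h - h * (2 * M * d) / n ≤ 0 := by
        have h2 : (1 : ℝ) ≤ (2 * M * d) / n := by
          rw [le_div_iff₀ hn0]
          have h3 : (n : ℝ) ≤ 2 * M := by exact_mod_cast hge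
          have h4 : (0 : ℝ) ≤ 2 * M := by positivity
          nlinarith
        have h5 : h * (2 * M * d) / n = h * ((2 * M * d) / n) := by ring
        rw [h5]
        nlinarith
      refine h1.trans (div_nonneg (Real.log_nonneg ?_) hnd.le)
      exact_mod_cast codes_pos e hx0 hper hR n
  have hA : 0 ≤ h * (2 * M * d) / n := by positivity
  have hB : 0 ≤ h * (M * (2 + M) ^ d) / n := by positivity
  have hC : h * (2 * M * d + M * (2 + M) ^ d) / n =
    h * (2 * M * d) / n + h * (M * (2 + M) ^ d) / n := by ring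
  rw [hC, abs_le]
  constructor <;> linarith

end

end Pool.Agent.Helper785.SP
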