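import Pool.Agent.Helper785_SIEnt.Defs

/-!
# Numbers of patterns on cubes and the entropy, for strongly irreducible shift spaces

`h k ^ d ≤ log N_k ≤ h (k + M) ^ d`, where `N_k` is the number of patterns on `{0, …, k-1}^d`.
-/

set_option autoImplicit false

namespace Pool.Agent.Helper785.SP

open Pool.Agent.Helper785.SIEnt Filter

variable {d : ℕ} {A : Type}

/-- Gluing with the gap `M`. -/
def GlueM (X : Set ((Fin d → ℤ) → A)) (M : ℕ) : Prop :=
  ∀ F G : Set (Fin d → ℤ), (∀ u ∈ F, ∀ v ∈ G, ∃ i : Fin d, (M : ℤ) ≤ |u i - v i|) →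
    ∀ x ∈ X, ∀ y ∈ X, ∃ z ∈ X, (∀ u ∈ F, z u = x u) ∧ (∀ v ∈ G, z v = y v)

/-- Invariance under translations. -/
def ShiftInv (X : Set ((Fin d → ℤ) → A)) : Prop :=
  ∀ x ∈ X, ∀ t : Fin d → ℤ, (fun v => x (v + t)) ∈ X

theorem sft_shift (L : List (Pattern d A)) : ShiftInv (sft L) := by
  intro x hx t P hP v hocc
  refine hx P hP (v + t) ?_
  intro s hs
  rw [← hocc s hs]
  show x (v + t + s) = x (v + s + t)
  congr 1
  abel

/-- Gluing of a finite family. -/
theorem glue_family {X : Set ((Fin d → ℤ) → A)} {M : ℕ} (hM : GlueM X M)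
    (hne : X.Nonempty) {ι : Type} (S : ι → Set (Fin d → ℤ)) (x : ι → (Fin d → ℤ) → A)
    (hx : ∀ i, x i ∈ X)
    (hS : ∀ i j, i ≠ j → ∀ u ∈ S i, ∀ v ∈ S j, ∃ t : Fin d, (M : ℤ) ≤ |u t - v t|)
    (J : Finset ι) : ∃ z ∈ X, ∀ i ∈ J, ∀ u ∈ S i, z u = x i u := by
  classical
  induction J using Finset.induction_on with
  | empty => obtain ⟨z, hz⟩ := hne; exact ⟨z, hz, fun i hi => absurd hi (Finset.notMem_empty i)⟩
  | insert a J ha ih =>
    obtain ⟨z, hz, hzJ⟩ := ih
    obtain ⟨z', hz', h1, h2⟩ := hM (⋃ i ∈ J, S i) (S a) (by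
      intro u hu v hv
      simp only [Set.mem_iUnion] at hu
      obtain ⟨i, hi, hu⟩ := hu
      exact hS i a (fun h => ha (h ▸ hi)) u hu v hv) z hz (x a) (hx a)
    refine ⟨z', hz', fun i hi u hu => ?_⟩
    rw [Finset.mem_insert] at hi
    rcases hi with rfl | hi
    · exact h2 u hu
    · rw [h1 u (by simp only [Set.mem_iUnion]; exact ⟨i, hi, hu⟩)]
      exact hzJ i hi u hu

/-- The patterns on the cube. -/
def pats (X : Set ((Fin d → ℤ) → A)) (k : ℕ) : Set (cube d k → A) :=
  (fun (x : (Fin d → ℤ) → A) (v : cube d k) => x v) '' X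

theorem patternCount_eq_card (X : Set ((Fin d → ℤ) → A)) (k : ℕ) :
    patternCount X k = Nat.card (pats X k) := rfl

instance finite_cube (k : ℕ) : Finite (cube d k) := by
  refine Set.Finite.to_subtype ?_
  refine (Set.Finite.pi (fun _ : Fin d => Set.finite_Ico (0 : ℤ) (k : ℤ))).subset ?_
  intro v hv i _
  exact hv i

instance finite_pats [Finite A] (X : Set ((Fin d → ℤ) → A)) (k : ℕ) : Finite (pats X k) :=
  inferInstance

/-- The offset of the cube with index `u`. -/
def off (T : ℕ) {q : ℕ} (u : Fin d → Fin q) : Fin d → ℤ := fun i => ((u i : ℕ) : ℤ) * (T : ℤ)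

theorem off_mem {n T q : ℕ} (hT : n ≤ T) (u : Fin d → Fin q) {v : Fin d → ℤ} (hv : v ∈ cube d n) :
    v + off T u ∈ cube d (q * T) := by
  intro i
  obtain ⟨h1, h2⟩ := hv i
  have h3 : (((u i : ℕ) : ℤ) + 1) ≤ (q : ℤ) := by exact_mod_cast (u i).2
  have h4 : (((u i : ℕ) : ℤ) + 1) * (T : ℤ) ≤ (q : ℤ) * (T : ℤ) :=
    mul_le_mul_of_nonneg_right h3 (by positivity)
  have h5 : (0 : ℤ) ≤ ((u i : ℕ) : ℤ) * (T : ℤ) := by positivity
  have h6 : (n : ℤ) ≤ T := by exact_mod_cast hT
  simp only [Pi.add_apply, off]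
  push_cast
  constructor
  · linarith
  · nlinarith

theorem pow_le_count [Finite A] {X : Set ((Fin d → ℤ) → A)} {M : ℕ} (hM : GlueM X M)
    (hsh : ShiftInv X) (hne : X.Nonempty) (n q : ℕ) :
    patternCount X n ^ (q ^ d) ≤ patternCount X (q * (n + M)) := by
  classical
  set T := n + M with hT
  have key : ∀ f : (Fin d → Fin q) → pats X n, ∃ g : pats X (q * T),
      ∀ (u : Fin d → Fin q) (v : cube d n), g.1 ⟨v.1 + off T u, off_mem (by omega) u v.2⟩ = (f u).1 v := by
    intro f
    choose x hx hxf using fun u => (f u).2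
    obtain ⟨z, hz, hzS⟩ := glue_family hM hne
      (fun u : Fin d → Fin q => {v | ∀ i, ((u i : ℕ) : ℤ) * (T : ℤ) ≤ v i ∧
        v i < ((u i : ℕ) : ℤ) * (T : ℤ) + n})
      (fun u v => x u (v + (- off T u))) (fun u => hsh _ (hx u) _) (by
        intro u u' huu a ha b hb
        obtain ⟨i, hi⟩ := Function.ne_iff.1 huu
        refine ⟨i, ?_⟩
        have ha' := ha i
        have hb' := hb i
        have hTz : (T : ℤ) = n + M := by rw [hT]; push_cast; ring
        have hne' : (u i : ℕ) ≠ (u' i : ℕ) := fun h => hi (Fin.ext h)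
        rcases lt_or_gt_of_ne hne' with h | h
        · have h3 : ((u i : ℕ) : ℤ) + 1 ≤ ((u' i : ℕ) : ℤ) := by exact_mod_cast h
          have h4 := mul_le_mul_of_nonneg_right h3 (show (0 : ℤ) ≤ T by positivity)
          rw [abs_sub_comm]
          refine le_trans ?_ (le_abs_self _)
          nlinarith [ha'.2, hb'.1]
        · have h3 : ((u' i : ℕ) : ℤ) + 1 ≤ ((u i : ℕ) : ℤ) := by exact_mod_cast h
          have h4 := mul_le_mul_of_nonneg_right h3 (show (0 : ℤ) ≤ T by positivity)
          refine le_trans ?_ (le_abs_self _)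
          nlinarith [ha'.1, hb'.2]) Finset.univ
    refine ⟨⟨fun v => z v, z, hz, rfl⟩, fun u v => ?_⟩
    have h1 := hzS u (Finset.mem_univ _) (v.1 + off T u) (by
      intro i
      obtain ⟨h1, h2⟩ := v.2 i
      simp only [Pi.add_apply, off]
      constructor <;> linarith)
    show z (v.1 + off T u) = (f u).1 v
    rw [h1, ← hxf u]
    show x u (v.1 + off T u + (- off T u)) = x u v.1
    rw [add_neg_cancel_right]
  choose Φ hΦ using key
  have hinj : Function.Injective Φ := by
    intro f f' h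
    funext u
    apply Subtype.ext
    funext v
    rw [← hΦ f u v, ← hΦ f' u v, h]
  have h1 := Nat.card_le_card_of_injective Φ hinj
  rw [Nat.card_fun] at h1
  simpa [patternCount_eq_card] using h1

theorem count_le_pow [Finite A] {X : Set ((Fin d → ℤ) → A)}
    (hsh : ShiftInv X) (n q : ℕ) (hn : 1 ≤ n) :
    patternCount X (q * n) ≤ patternCount X n ^ (q ^ d) := by
  classical
  let Φ : pats X (q * n) → ((Fin d → Fin q) → pats X n) := fun g u =>
    ⟨fun v => g.1 ⟨v.1 + off n u, off_mem le_rfl u v.2⟩, by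
      obtain ⟨g, x, hx, rfl⟩ := g
      exact ⟨fun v => x (v + off n u), hsh _ hx _, rfl⟩⟩
  have hinj : Function.Injective Φ := by
    intro g g' h
    apply Subtype.ext
    funext v
    have hn0 : (0 : ℤ) < n := by exact_mod_cast hn
    have hq : ∀ i, (v.1 i / n).toNat < q := by
      intro i
      obtain ⟨h1, h2⟩ := v.2 i
      have h3 : v.1 i / n < q := by
        refine Int.ediv_lt_of_lt_mul hn0 ?_
        push_cast at h2
        exact h2
      have h4 : 0 ≤ v.1 i / n := Int.ediv_nonneg h1 hn0.le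
      omega
    let u : Fin d → Fin q := fun i => ⟨(v.1 i / n).toNat, hq i⟩
    let w : cube d n := ⟨fun i => v.1 i % n, fun i =>
      ⟨Int.emod_nonneg _ hn0.ne', Int.emod_lt_of_pos _ hn0⟩⟩
    have hvw : w.1 + off n u = v.1 := by
      funext i
      have h4 : 0 ≤ v.1 i / n := Int.ediv_nonneg (v.2 i).1 hn0.le
      show v.1 i % n + (((v.1 i / n).toNat : ℕ) : ℤ) * n = v.1 i
      rw [Int.toNat_of_nonneg h4]
      have h5 := Int.emod_add_mul_ediv (v.1 i) n
      linarith
    have h2 := congrFun (congrArg Subtype.val (congrFun h u)) w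
    have h3 : (⟨w.1 + off n u, off_mem le_rfl u w.2⟩ : cube d (q * n)) = v := Subtype.ext hvw
    have h4 : g.1 ⟨w.1 + off n u, off_mem le_rfl u w.2⟩ =
      g'.1 ⟨w.1 + off n u, off_mem le_rfl u w.2⟩ := h2
    rw [h3] at h4
    exact h4
  have h1 := Nat.card_le_card_of_injective Φ hinj
  rw [Nat.card_fun] at h1
  simpa [patternCount_eq_card] using h1

theorem patternCount_pos [Finite A] {X : Set ((Fin d → ℤ) → A)} (hne : X.Nonempty) (n : ℕ) :
    0 < patternCount X n := by
  rw [patternCount_eq_card]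
  have : Nonempty (pats X n) := (hne.image _).to_subtype
  exact Nat.card_pos

theorem entropy_le [Finite A] {X : Set ((Fin d → ℤ) → A)} {h : ℝ} (hent : HasEntropy X h)
    (hsh : ShiftInv X) (hne : X.Nonempty) (n : ℕ) (hn : 1 ≤ n) :
    h * (n : ℝ) ^ d ≤ Real.log (patternCount X n) := by
  have hn0 : (0 : ℝ) < n := by exact_mod_cast hn
  have ht : Tendsto (fun q : ℕ => q * n) atTop atTop :=
    tendsto_atTop_mono (fun q => Nat.le_mul_of_pos_right q hn) tendsto_id
  have h1 := hent.comp ht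
  have h2 : h ≤ Real.log (patternCount X n) / (n : ℝ) ^ d := by
    refine le_of_tendsto h1 ?_
    filter_upwards [eventually_ge_atTop 1] with q hq
    have hq0 : (0 : ℝ) < q := by exact_mod_cast hq
    show Real.log (patternCount X (q * n)) / ((q * n : ℕ) : ℝ) ^ d ≤ _
    have h3 : (patternCount X (q * n) : ℝ) ≤ (patternCount X n : ℝ) ^ (q ^ d) := by
      exact_mod_cast count_le_pow hsh n q hn
    have h4 := Real.log_le_log (by exact_mod_cast patternCount_pos hne _) h3
    rw [Real.log_pow] at h4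
    rw [div_le_div_iff₀ (by positivity) (by positivity)]
    calc Real.log (patternCount X (q * n)) * (n : ℝ) ^ d
        ≤ (((q ^ d : ℕ) : ℝ) * Real.log (patternCount X n)) * (n : ℝ) ^ d := by gcongr
      _ = Real.log (patternCount X n) * ((q * n : ℕ) : ℝ) ^ d := by push_cast; ring
  rwa [le_div_iff₀ (by positivity)] at h2

theorem le_entropy [Finite A] {X : Set ((Fin d → ℤ) → A)} {h : ℝ} (hent : HasEntropy X h)
    {M : ℕ} (hM : GlueM X M) (hsh : ShiftInv X) (hne : X.Nonempty) (n : ℕ) (hn : 1 ≤ n) :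
    Real.log (patternCount X n) ≤ h * ((n : ℝ) + M) ^ d := by
  have hn0 : (0 : ℝ) < n := by exact_mod_cast hn
  have ht : Tendsto (fun q : ℕ => q * (n + M)) atTop atTop :=
    tendsto_atTop_mono (fun q => Nat.le_mul_of_pos_right q (by omega)) tendsto_id
  have h1 := hent.comp ht
  have h2 : Real.log (patternCount X n) / ((n : ℝ) + M) ^ d ≤ h := by
    refine ge_of_tendsto h1 ?_
    filter_upwards [eventually_ge_atTop 1] with q hq
    have hq0 : (0 : ℝ) < q := by exact_mod_cast hq
    show _ ≤ Real.log (patternCount X (q * (n + M))) / ((q * (n + M) : ℕ) : ℝ) ^ d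
    have h3 : (patternCount X n : ℝ) ^ (q ^ d) ≤ (patternCount X (q * (n + M)) : ℝ) := by
      exact_mod_cast pow_le_count hM hsh hne n q
    have h0 : (0 : ℝ) < patternCount X n := by exact_mod_cast patternCount_pos hne _
    have h4 := Real.log_le_log (by positivity) h3
    rw [Real.log_pow] at h4
    rw [div_le_div_iff₀ (by positivity) (by positivity)]
    calc Real.log (patternCount X n) * ((q * (n + M) : ℕ) : ℝ) ^ d
        = (((q ^ d : ℕ) : ℝ) * Real.log (patternCount X n)) * ((n : ℝ) + M) ^ d := by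
          push_cast
          rw [mul_pow]
          ring
      _ ≤ Real.log (patternCount X (q * (n + M))) * ((n : ℝ) + M) ^ d := by gcongr
  rwa [div_le_iff₀ (by positivity)] at h2

end Pool.Agent.Helper785.SP
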