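import Pool.Agent.Helper785_SP.Per
import Pool.Agent.Helper785_BG.Cyl

/-!
# Periodic points of block gluing shifts of finite type on `ℤ ^ 2`, and loops of sequences
-/

set_option autoImplicit false

namespace Pool.Agent.Helper785.SP

open Pool.Agent.Helper785.SIEnt
open Pool.Agent.Helper785.BG

variable {A : Type}

/-- A nonempty block gluing shift of finite type on `ℤ²` has a periodic point. -/
theorem exists_periodic2 [Finite A] {L : List (Pattern 2 A)} {M : ℕ} (hX : Glue (sft L) M)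
    (hne : (sft L).Nonempty) : ∃ P : ℕ, 1 ≤ P ∧ ∃ x ∈ sft L, IsPer P x := by
  classical
  obtain ⟨k, ⟨e⟩⟩ := Finite.exists_equiv_fin A
  obtain ⟨w, G, hw, hG⟩ := exists_window e L
  have hk : 0 < k := by
    obtain ⟨x, _⟩ := hne
    exact lt_of_le_of_lt (Nat.zero_le _) (e (x 0)).2
  obtain ⟨T, hT⟩ : ∃ T : ℕ, T = w + M := ⟨_, rfl⟩
  have hTpos : 0 < T := by omega
  obtain ⟨K, hK⟩ : ∃ K : ℕ, K = k ^ (w * T) := ⟨_, rfl⟩
  have h1 : 0 < total K (good k w T G) (stp k w T) K := by
    have := (rc_pos hne w (K + w)).trans_le (rc_le_total e hw hG hX w le_rfl K)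
    rw [← hT, ← hK] at this
    exact this
  rw [total_eq] at h1
  obtain ⟨⟨γ, hγ1, hγ2⟩⟩ := (Nat.card_pos_iff.1 h1).1
  obtain ⟨a, b, hab, hγab⟩ := Fintype.exists_ne_map_eq_of_card_lt γ (by simp)
  wlog hlt : a < b generalizing a b with H
  · exact H b a hab.symm hγab.symm (lt_of_le_of_ne (not_lt.1 hlt) hab.symm)
  obtain ⟨D, hD⟩ : ∃ D : ℕ, (b : ℕ) = a + D := ⟨b - a, by have : (a : ℕ) < b := hlt; omega⟩
  have hDpos : 0 < D := by have : (a : ℕ) < b := hlt; omega
  have hDz : (0 : ℤ) < D := by exact_mod_cast hDpos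
  have hmod : ∀ t : ℤ, (t % (D : ℤ)).toNat < D := by
    intro t
    have := Int.emod_nonneg t hDz.ne'
    have := Int.emod_lt_of_pos t hDz
    omega
  have hbK := b.2
  obtain ⟨δ, hδ⟩ : ∃ δ : ℤ → Fin K, δ = fun t =>
    γ ⟨a + (t % (D : ℤ)).toNat, by have := hmod t; omega⟩ := ⟨_, rfl⟩
  have hgood : ∀ t, BG.good k w T G (δ t) = true := by intro t; rw [hδ]; exact hγ1 _
  have hstep : ∀ t, stp k w T (δ t) (δ (t + 1)) = true := by
    intro t
    have hm := hmod t
    have h0 := Int.emod_nonneg t hDz.ne'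
    have h2 := hγ2 ⟨a + (t % (D : ℤ)).toNat, by omega⟩
    have h3 : δ (t + 1) = γ (Fin.succ ⟨a + (t % (D : ℤ)).toNat, by omega⟩) := by
      rw [hδ]
      have h4 : (t + 1) % (D : ℤ) = (t % D + 1) % D := by simp [Int.add_emod]
      rcases Nat.lt_or_ge ((t % (D : ℤ)).toNat + 1) D with h5 | h5
      · have h6 : (t + 1) % (D : ℤ) = t % D + 1 := by
          rw [h4, Int.emod_eq_of_lt (by omega) (by omega)]
        refine congrArg γ (Fin.ext ?_)
        simp only [Fin.val_succ, h6]
        omega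
      · have h6 : (t + 1) % (D : ℤ) = 0 := by
          have : t % (D : ℤ) + 1 = D := by omega
          rw [h4, this, Int.emod_self]
        have h7 : (⟨a + ((t + 1) % (D : ℤ)).toNat, by have := hmod (t + 1); omega⟩ :
            Fin (K + 1)) = a := by
          apply Fin.ext
          simp only [h6]
          simp
        have h8 : (Fin.succ ⟨a + (t % (D : ℤ)).toNat, by omega⟩ : Fin (K + 1)) = b := by
          apply Fin.ext
          simp only [Fin.val_succ]
          omega
        show γ _ = _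
        rw [h7, h8, hγab]
    rw [h3, hδ]
    exact h2
  have hit := stp_iter (k := k) (δ := δ) hstep
  have hdlt : ∀ s n, dg k s n < k := fun s n => Nat.mod_lt _ hk
  refine ⟨T * D, Nat.mul_pos hTpos hDpos,
    fun v => e.symm ⟨dg k (δ (v 1) : Fin K) ((v 0) % T).toNat, hdlt _ _⟩, ?_, ?_⟩
  · rw [hG]
    intro i j
    have hg := BG.good_iff.1 (hgood j) ((i % T).toNat) (by
      have := Int.emod_lt_of_pos i (show (0 : ℤ) < T by omega)
      omega)
    convert! hg using 1
    apply wl_congr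
    intro a ha b hb
    simp only [Matrix.cons_val_zero, Matrix.cons_val_one, Matrix.cons_val_fin_one,
      Equiv.apply_symm_apply]
    rw [hit b (((i % T).toNat + a) % T) j (Nat.mod_lt _ hTpos) hb]
    congr 1
    have h0 := Int.emod_nonneg i (show (T : ℤ) ≠ 0 by omega)
    have h1 : (((((i % T).toNat + a) % T : ℕ) : ℤ)) = (i + a) % T := by
      push_cast
      rw [Int.toNat_of_nonneg h0, Int.emod_add_emod]
    have h2 := congrArg Int.toNat h1
    rw [Int.toNat_natCast] at h2
    exact h2.symm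
  · intro v u
    have e0 : (v 0 + ((T * D : ℕ) : ℤ) * u 0) % (T : ℤ) = v 0 % T := by
      push_cast
      rw [mul_assoc, Int.add_mul_emod_self_left]
    have e1 : (v 1 + ((T * D : ℕ) : ℤ) * u 1) % (D : ℤ) = v 1 % D := by
      push_cast
      rw [show (T : ℤ) * D * u 1 = D * (T * u 1) by ring, Int.add_mul_emod_self_left]
    have e2 : δ (v 1 + ((T * D : ℕ) : ℤ) * u 1) = δ (v 1) := by
      rw [hδ]
      simp only [e1]
    show e.symm ⟨dg k (δ (v 1 + ((T * D : ℕ) : ℤ) * u 1) : Fin K)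
      ((v 0 + ((T * D : ℕ) : ℤ) * u 0) % T).toNat, _⟩ = _
    simp only [e0, e2]

section loop

variable {B : Type}

/-- Loops to the right. -/
theorem ext_right (Q : (ℕ → B) → Prop) (w : ℕ)
    (hQ : ∀ f g : ℕ → B, (∀ a < w, f a = g a) → Q f → Q g) (Rg : ℤ → Prop) (c : ℤ → B)
    (s : ℤ) (D : ℕ) (hD : w ≤ D) (hD0 : 0 < D) (hRg : ∀ i, s ≤ i → Rg i)
    (hall : ∀ i, Rg i → i ≤ s + D → Q (fun a => c (i + a)))
    (heq : ∀ t : ℕ, t < w → c (s + t) = c (s + D + t)) :
    ∃ c' : ℤ → B, (∀ t, t < s + D → c' t = c t) ∧ ∀ i, Rg i → Q (fun a => c' (i + a)) := by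
  have hDz : (0 : ℤ) < D := by exact_mod_cast hD0
  obtain ⟨c', hc'⟩ : ∃ c' : ℤ → B, c' = fun t => if t < s then c t else c (s + (t - s) % D) :=
    ⟨_, rfl⟩
  have h1 : ∀ t, t < s + D → c' t = c t := by
    intro t ht
    rw [hc']
    show (if t < s then c t else c (s + (t - s) % D)) = c t
    split_ifs with h
    · rfl
    · rw [Int.emod_eq_of_lt (by omega) (by omega)]
      congr 1
      ring
  have h2 : ∀ t, t < s + D + w → c' t = c t := by
    intro t ht
    rcases lt_or_ge t (s + D) with h | h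
    · exact h1 t h
    · rw [hc']
      show (if t < s then c t else c (s + (t - s) % D)) = c t
      rw [if_neg (by omega)]
      have h3 : (t - s) % (D : ℤ) = t - s - D := by
        rw [← Int.sub_emod_right, Int.emod_eq_of_lt (by omega) (by omega)]
      obtain ⟨m, hm⟩ := Int.eq_ofNat_of_zero_le (show 0 ≤ t - s - D by omega)
      have h4 := heq m (by omega)
      rw [h3, hm, h4]
      congr 1
      omega
  refine ⟨c', h1, fun i hi => ?_⟩
  have h3 : ∀ i, Rg i → i ≤ s + D → Q (fun a => c' (i + a)) := by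
    intro i hi hle
    refine hQ _ _ (fun a ha => ?_) (hall i hi hle)
    exact (h2 (i + a) (by omega)).symm
  rcases le_or_gt i (s + D) with hle | hgt
  · exact h3 i hi hle
  · have h4 := Int.emod_nonneg (i - s) hDz.ne'
    have h5 := Int.emod_lt_of_pos (i - s) hDz
    refine hQ _ _ (fun a ha => ?_) (h3 (s + (i - s) % D) (hRg _ (by omega)) (by omega))
    rw [hc']
    show (if s + (i - s) % D + a < s then c (s + (i - s) % D + a) else
      c (s + (s + (i - s) % D + a - s) % D)) = (if i + a < s then c (i + a) else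
      c (s + (i + a - s) % D))
    rw [if_neg (by omega), if_neg (by omega)]
    congr 2
    rw [show s + (i - s) % D + (a : ℤ) - s = (i - s) % D + a by ring,
      show i + (a : ℤ) - s = (i - s) + a by ring, Int.emod_add_emod]

/-- Loops on both sides. -/
theorem ext_both (Q : (ℕ → B) → Prop) (w : ℕ) (hw : 1 ≤ w)
    (hQ : ∀ f g : ℕ → B, (∀ a < w, f a = g a) → Q f → Q g) (c : ℤ → B)
    (p s : ℤ) (D D' : ℕ) (hD : w ≤ D) (hD' : w ≤ D') (hps : p + D' ≤ s)
    (hall : ∀ i, p ≤ i → i ≤ s + D → Q (fun a => c (i + a)))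
    (heq : ∀ t : ℕ, t < w → c (s + t) = c (s + D + t))
    (heq' : ∀ t : ℕ, t < w → c (p + t) = c (p + D' + t)) :
    ∃ c' : ℤ → B, (∀ t, p + w ≤ t → t < s + D → c' t = c t) ∧ ∀ i, Q (fun a => c' (i + a)) := by
  obtain ⟨c1, h1, h2⟩ := ext_right Q w hQ (fun i => p ≤ i) c s D hD (by omega)
    (fun i hi => by have : (0 : ℤ) ≤ D' := by positivity
                    omega) hall heq
  -- reflection
  obtain ⟨c2, h3, h4⟩ := ext_right (fun f => Q (fun a => f (w - 1 - a))) w (by
    intro f g hfg hf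
    refine hQ _ _ (fun a ha => ?_) hf
    exact hfg _ (by omega)) (fun _ => True) (fun t => c1 (-t)) (-(p + D' + w - 1)) D' hD'
    (by omega) (fun _ _ => trivial) (by
      intro i _ hi
      refine hQ _ _ (fun a ha => ?_) (h2 (-i - w + 1) (by show p ≤ _; omega))
      show c1 (-i - w + 1 + a) = c1 (-(i + ((w - 1 - a : ℕ) : ℤ)))
      congr 1
      omega) (by
      intro t ht
      have h5 := heq' (w - 1 - t) (by omega)
      have e1 : c1 (p + ((w - 1 - t : ℕ) : ℤ)) = c (p + ((w - 1 - t : ℕ) : ℤ)) := h1 _ (by omega)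
      have e2 : c1 (p + D' + ((w - 1 - t : ℕ) : ℤ)) = c (p + D' + ((w - 1 - t : ℕ) : ℤ)) :=
        h1 _ (by omega)
      show c1 (-(-(p + D' + w - 1) + t)) = c1 (-(-(p + D' + w - 1) + D' + t))
      rw [show -(-(p + D' + w - 1) + (t : ℤ)) = p + D' + ((w - 1 - t : ℕ) : ℤ) by omega,
        show -(-(p + D' + w - 1) + (D' : ℤ) + (t : ℤ)) = p + ((w - 1 - t : ℕ) : ℤ) by omega,
        e1, e2, h5])
  refine ⟨fun t => c2 (-t), ?_, ?_⟩
  · intro t ht1 ht2
    show c2 (-t) = c t
    rw [h3 (-t) (by omega)]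
    show c1 (- -t) = c t
    rw [neg_neg]
    exact h1 t ht2
  · intro i
    refine hQ _ _ (fun a ha => ?_) (h4 (-i - w + 1) trivial)
    show c2 (-i - w + 1 + ((w - 1 - a : ℕ) : ℤ)) = c2 (-(i + a))
    congr 1
    omega

end loop

end Pool.Agent.Helper785.SP
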