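import Pool.Agent.Helper785_SP.Cnt
import Pool.Agent.Helper785_SP.Per2
import Pool.Agent.Helper785_BG.Bound

/-!
# Coding the patterns of a block gluing shift of finite type on `ℤ ^ 2`

The patterns are surrounded by a periodic point outside of four arms.
-/

set_option autoImplicit false

namespace Pool.Agent.Helper785.SP

open Pool.Agent.Helper785.SIEnt Filter
open Pool.Agent.Helper785.BG (dg dg_enc eq_of_dg Glue rc pat patternCount_eq entropy_mul_le
  log_rc_le rc_pos vec_eta)
open Pool.Agent.NPC (valB valB_lt)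

variable {A : Type} {k : ℕ}

/-- The places where the configuration is not prescribed. -/
def Free (M S n i j : ℕ) : Prop := (S ≤ i ∧ i + S < n) ∨ j < M ∨ n ≤ j + M

instance (M S n i j : ℕ) : Decidable (Free M S n i j) := by unfold Free; infer_instance

/-- The letter of the periodic point as a digit. -/
def xdig (e : A ≃ Fin k) (x0 : (Fin 2 → ℤ) → A) (P0 c : ℕ) : ℕ :=
  e (x0 (fun i => ((dg P0 c i : ℕ) : ℤ)))

/-- The test of one prescribed place. -/
def cell2 (e : A ≃ Fin k) (x0 : (Fin 2 → ℤ) → A) (P0 M S n W q : ℕ) : Bool :=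
  decide (Free M S n (dg n q 0) (dg n q 1)) ||
    decide (dg (2 ^ k) W q = xdig e x0 P0 (idx P0 (fun i : Fin 2 => dg n q i % P0)))

/-- The test whether the number `W` codes a configuration with allowed windows. -/
noncomputable def good2 (L : List (Pattern 2 A)) (e : A ≃ Fin k) (x0 : (Fin 2 → ℤ) → A)
    (P0 R M S n W : ℕ) : Bool :=
  (List.range (n ^ 2)).all (fun q => decide (dg (2 ^ k) W q < k)) &&
  ((List.range (n ^ 2)).all (fun q => cell2 e x0 P0 M S n W q) &&
  L.all (fun P => (List.range ((n + 2 * R) ^ 2)).all (fun q =>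
    (! decide (2 * R ≤ dg (n + 2 * R) q 0 ∧ dg (n + 2 * R) q 0 < n)) ||
    ! P.supp.toList.all (fun s =>
      tst e x0 P0 R n W (fun i => dg (n + 2 * R) q i) s (P.val s)))))

theorem xdig_eq (e : A ≃ Fin k) {x0 : (Fin 2 → ℤ) → A} {P0 : ℕ} (hP0 : 1 ≤ P0)
    (hper : IsPer P0 x0) (t : Fin 2 → ℕ) :
    xdig e x0 P0 (idx P0 (fun i => t i % P0)) = (e (x0 (fun i => ((t i : ℕ) : ℤ))) : ℕ) := by
  unfold xdig
  have h1 : (fun i : Fin 2 => ((dg P0 (idx P0 (fun i => t i % P0)) i : ℕ) : ℤ)) =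
      (fun i => ((t i % P0 : ℕ) : ℤ)) := by
    funext i
    rw [dg_idx _ (fun i => Nat.mod_lt _ hP0)]
  rw [h1]
  have h2 := hper (fun i => ((t i % P0 : ℕ) : ℤ)) (fun i => ((t i / P0 : ℕ) : ℤ))
  rw [← h2]
  congr 3
  funext i
  have := Nat.mod_add_div (t i) P0
  exact_mod_cast this

theorem good2_iff {L : List (Pattern 2 A)} (e : A ≃ Fin k) {x0 : (Fin 2 → ℤ) → A}
    (hx0 : x0 ∈ sft L) {P0 : ℕ} (hP0 : 1 ≤ P0) (hper : IsPer P0 x0) {R : ℕ}
    (hR : ∀ P ∈ L, ∀ s ∈ P.supp, ∀ i, |s i| ≤ (R : ℤ)) (M S n W : ℕ) :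
    good2 L e x0 P0 R M S n W = true ↔
      (∀ q < n ^ 2, dg (2 ^ k) W q < k) ∧
      (∀ i j : ℕ, i < n → j < n → ¬ Free M S n i j →
        conf e x0 n W ![(i : ℤ), (j : ℤ)] = x0 ![(i : ℤ), (j : ℤ)]) ∧
      (∀ P ∈ L, ∀ v : Fin 2 → ℤ, (R : ℤ) ≤ v 0 → v 0 + R < n →
        ¬ P.OccursAt (conf e x0 n W) v) := by
  unfold good2
  simp only [Bool.and_eq_true, List.all_eq_true, List.mem_range, decide_eq_true_eq,
    Bool.or_eq_true, Bool.not_eq_true', Finset.mem_toList, ← Bool.not_eq_true]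
  refine and_congr_right fun hW => and_congr ?_ ?_
  · have hcell : ∀ i j : ℕ, i < n → j < n → (cell2 e x0 P0 M S n W (idx n ![i, j]) = true ↔
        (¬ Free M S n i j → conf e x0 n W ![(i : ℤ), (j : ℤ)] = x0 ![(i : ℤ), (j : ℤ)])) := by
      intro i j hi hj
      have ht : ∀ a : Fin 2, (![i, j] : Fin 2 → ℕ) a < n := by
        intro a; fin_cases a
        · exact hi
        · exact hj
      have h0 := dg_idx ![i, j] ht 0
      have h1 := dg_idx ![i, j] ht 1
      have h2 : (fun a : Fin 2 => dg n (idx n ![i, j]) a % P0) = fun a => (![i, j] : Fin 2 → ℕ) a % P0 := by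
        funext a; rw [dg_idx _ ht a]
      have h3 : (fun a : Fin 2 => (((![i, j] : Fin 2 → ℕ) a : ℕ) : ℤ)) = ![(i : ℤ), (j : ℤ)] := by
        funext a; fin_cases a <;> rfl
      have h4 : conf e x0 n W ![(i : ℤ), (j : ℤ)] =
          dec e (x0 0) (dg (2 ^ k) W (idx n ![i, j])) := by
        unfold conf
        rw [if_pos]
        · have h5 : (fun a : Fin 2 => ((![(i : ℤ), (j : ℤ)] : Fin 2 → ℤ) a).toNat) = ![i, j] := by
            funext a; fin_cases a <;> simp
          rw [h5]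
        · intro a; fin_cases a <;> simp <;> omega
      unfold cell2
      simp only [Fin.val_zero, Fin.val_one] at h0 h1
      rw [h0, h1, h2, xdig_eq e hP0 hper, h3, Bool.or_eq_true, decide_eq_true_eq,
        decide_eq_true_eq, h4, dec_eq_iff e (x0 0) (hW _ (idx_lt _ ht))]
      simp only [Matrix.cons_val_zero, Matrix.cons_val_one, Matrix.cons_val_fin_one]
      tauto
    constructor
    · intro h i j hi hj
      have ht : ∀ a : Fin 2, (![i, j] : Fin 2 → ℕ) a < n := by
        intro a; fin_cases a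
        · exact hi
        · exact hj
      exact (hcell i j hi hj).1 (h _ (idx_lt _ ht))
    · intro h q hq
      have hn : 0 < n := by
        rcases Nat.eq_zero_or_pos n with h | h
        · subst h; simp at hq
        · exact h
      have h0 : dg n q 0 < n := Nat.mod_lt _ hn
      have h1 : dg n q 1 < n := Nat.mod_lt _ hn
      have h2 : idx n ![dg n q 0, dg n q 1] = q := by
        rw [← idx_dg (d := 2) q hq]
        congr 1
        funext a; fin_cases a
        · simp [idx_dg (d := 2) q hq]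
        · simp [idx_dg (d := 2) q hq]
      rw [← h2]
      exact (hcell _ _ h0 h1).2 (h _ _ h0 h1)
  · constructor
    · intro h P hP v hv0 hv1 hocc
      by_cases hin : ∃ s ∈ P.supp, ∀ i, 0 ≤ (v + s) i ∧ (v + s) i < (n : ℤ)
      · obtain ⟨s0, hs0, hin⟩ := hin
        have hv : ∀ i, 0 ≤ v i + R ∧ v i + R < n + 2 * R := by
          intro i
          have h1 := abs_le.1 (hR P hP s0 hs0 i)
          have h2 := hin i
          simp only [Pi.add_apply] at h2
          constructor <;> linarith [h1.1, h1.2, h2.1, h2.2]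
        have hu : ∀ i, (v i + R).toNat < n + 2 * R := by
          intro i
          have := hv i
          omega
        have hu0 := dg_idx _ hu 0
        rcases h P hP (idx (n + 2 * R) (fun i => (v i + R).toNat)) (idx_lt _ hu) with h' | h'
        · apply h'
          simp only [Fin.val_zero] at hu0
          rw [hu0]
          omega
        · refine h' ?_
          intro s hs
          rw [tst_iff e hper R n W hW _ s (hR P hP s hs)]
          rw [← hocc s hs]
          congr 1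
          funext i
          rw [dg_idx _ hu i, Int.toNat_of_nonneg (hv i).1]
          simp
      · push Not at hin
        refine hx0 P hP v ?_
        intro s hs
        rw [← hocc s hs]
        unfold conf
        rw [if_neg]
        intro h'
        obtain ⟨i, hi⟩ := hin s hs
        exact absurd (h' i).2 (not_lt.2 (hi (h' i).1))
    · intro h P hP q hq
      by_cases hc : 2 * R ≤ dg (n + 2 * R) q 0 ∧ dg (n + 2 * R) q 0 < n
      · right
        intro hall
        refine h P hP (fun i => ((dg (n + 2 * R) q i : ℕ) : ℤ) - R) ?_ ?_ ?_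
        · show (R : ℤ) ≤ ((dg (n + 2 * R) q 0 : ℕ) : ℤ) - R
          omega
        · show ((dg (n + 2 * R) q 0 : ℕ) : ℤ) - R + R < n
          omega
        · intro s hs
          have := (tst_iff e hper R n W hW _ s (hR P hP s hs) (P.val s)).1 (hall s hs)
          rw [← this]
          rfl
      · left
        exact hc

/-- The number of the codes. -/
noncomputable def codes2 (L : List (Pattern 2 A)) (e : A ≃ Fin k) (x0 : (Fin 2 → ℤ) → A)
    (P0 R M S n : ℕ) : ℕ :=
  Nat.card {w : List Bool // w.length = k * n ^ 2 ∧ good2 L e x0 P0 R M S n (valB w) = true}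

theorem pigeon {β : Type} [Finite β] (F : ℕ → β) : ∃ a b : ℕ, a < b ∧ b ≤ Nat.card β ∧ F a = F b := by
  classical
  have := Fintype.ofFinite β
  obtain ⟨a, b, hab, h⟩ := Fintype.exists_ne_map_eq_of_card_lt
    (fun i : Fin (Nat.card β + 1) => F i) (by simp [Nat.card_eq_fintype_card])
  rcases lt_or_gt_of_ne hab with h' | h'
  · exact ⟨a, b, h', by have := b.2; omega, h⟩
  · exact ⟨b, a, h', by have := a.2; omega, h.symm⟩

/-- The row with the number `j` among the `2 M` outer rows. -/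
def row (M n j : ℕ) : ℕ := if j < M then j else n - 2 * M + j

theorem exists_row {M n j : ℕ} (hn : 2 * M ≤ n) (hj : j < n) (h : j < M ∨ n ≤ j + M) :
    ∃ j' < 2 * M, row M n j' = j := by
  rcases h with h | h
  · exact ⟨j, by omega, by unfold row; rw [if_pos h]⟩
  · refine ⟨j - (n - 2 * M), by omega, ?_⟩
    unfold row
    rw [if_neg (by omega)]
    omega

theorem row_lt {M n j : ℕ} (hn : 2 * M ≤ n) (hj : j < 2 * M) : row M n j < n := by
  unfold row
  split_ifs <;> omega

section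

variable [Finite A] {L : List (Pattern 2 A)} (e : A ≃ Fin k) {x0 : (Fin 2 → ℤ) → A}
    (hx0 : x0 ∈ sft L) {P0 : ℕ} (hP0 : 1 ≤ P0) (hper : IsPer P0 x0) {R : ℕ}
    (hR : ∀ P ∈ L, ∀ s ∈ P.supp, ∀ i, |s i| ≤ (R : ℤ)) {M S : ℕ}

include hx0 hP0 hper hR

/-- Equality of two columns in the arms. -/
theorem col_eq {n W : ℕ} (hn : 2 * M ≤ n)
    (hforced : ∀ i j : ℕ, i < n → j < n → ¬ Free M S n i j →
        conf e x0 n W ![(i : ℤ), (j : ℤ)] = x0 ![(i : ℤ), (j : ℤ)])
    {i1 i2 : ℕ} (m : ℕ) (hi : i2 = i1 + P0 * m) (hi2 : i2 < n)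
    (h1 : i1 < S ∨ n ≤ i1 + S) (h2 : i2 < S ∨ n ≤ i2 + S)
    (hrow : ∀ j < 2 * M, conf e x0 n W ![(i1 : ℤ), ((row M n j : ℕ) : ℤ)] =
      conf e x0 n W ![(i2 : ℤ), ((row M n j : ℕ) : ℤ)]) (j : ℤ) :
    conf e x0 n W ![(i1 : ℤ), j] = conf e x0 n W ![(i2 : ℤ), j] := by
  have hx : x0 ![(i1 : ℤ), j] = x0 ![(i2 : ℤ), j] := by
    have := hper ![(i1 : ℤ), j] ![(m : ℤ), 0]
    rw [← this]
    congr 1
    funext a
    fin_cases a
    · simp [hi]
    · simp
  by_cases hj : 0 ≤ j ∧ j < n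
  · obtain ⟨j', rfl⟩ := Int.eq_ofNat_of_zero_le hj.1
    have hj' : j' < n := by omega
    by_cases hg : j' < M ∨ n ≤ j' + M
    · obtain ⟨j2, hj2, rfl⟩ := exists_row hn hj' hg
      exact hrow j2 hj2
    · push Not at hg
      have hF : ∀ i : ℕ, (i < S ∨ n ≤ i + S) → ¬ Free M S n i j' := by
        intro i hi
        unfold Free
        omega
      have e1 := hforced i1 j' (by omega) hj' (hF i1 h1)
      have e2 := hforced i2 j' hi2 hj' (hF i2 h2)
      rw [e1, e2]
      exact hx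
  · have hout : ∀ i : ℤ, conf e x0 n W ![i, j] = x0 ![i, j] := by
      intro i
      unfold conf
      rw [if_neg]
      intro h
      exact hj (by simpa using h 1)
    rw [hout, hout]
    exact hx

/-- A code gives a point which has the same center. -/
theorem exists_point {n W : ℕ} (hn : 2 * M ≤ n) (hnS : 2 * S ≤ n)
    (hS : Nat.card (Fin (2 * R + 1) → Fin (2 * M) → A) * ((2 * R + 1) * P0) + (2 * R + 1) ≤ S)
    (hgood : good2 L e x0 P0 R M S n W = true) :
    ∃ y ∈ sft L, ∀ v : Fin 2 → ℤ, (S : ℤ) ≤ v 0 → v 0 + S < n → y v = conf e x0 n W v := by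
  obtain ⟨hW, hforced, hwin⟩ := (good2_iff e hx0 hP0 hper hR M S n W).1 hgood
  obtain ⟨w, hw⟩ : ∃ w : ℕ, w = 2 * R + 1 := ⟨_, rfl⟩
  obtain ⟨J, hJ⟩ : ∃ J : ℕ, J = Nat.card (Fin (2 * R + 1) → Fin (2 * M) → A) := ⟨_, rfl⟩
  rw [← hJ, ← hw] at hS
  obtain ⟨q, hq⟩ : ∃ q : ℕ, q = w * P0 := ⟨_, rfl⟩
  rw [← hq] at hS
  have hqw : w ≤ q := by rw [hq]; exact Nat.le_mul_of_pos_right _ hP0
  -- the column map
  obtain ⟨c, hc⟩ : ∃ c : ℤ → ℤ → A, c = fun i j => conf e x0 n W ![i, j] := ⟨_, rfl⟩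
  have key : ∀ p0 : ℕ, (p0 = 0 ∨ p0 = n - S) → ∃ a b : ℕ, a < b ∧ b ≤ J ∧ ∀ t : ℕ, t < w →
      c ((p0 + a * q : ℕ) + t) = c ((p0 + b * q : ℕ) + t) := by
    intro p0 hp0
    obtain ⟨a, b, hab, hb, hF⟩ := pigeon
      (fun a : ℕ => fun (t : Fin (2 * R + 1)) (j : Fin (2 * M)) =>
        conf e x0 n W ![((p0 + a * q + (t : ℕ) : ℕ) : ℤ), ((row M n j : ℕ) : ℤ)])
    rw [← hJ] at hb
    refine ⟨a, b, hab, hb, fun t ht => ?_⟩
    have hbq : b * q ≤ J * q := Nat.mul_le_mul_right _ hb
    have haq : a * q ≤ b * q := Nat.mul_le_mul_right _ hab.le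
    have hpos : ∀ x : ℕ, x ≤ b → (p0 + x * q + t < S ∨ n ≤ p0 + x * q + t + S) ∧
        p0 + x * q + t < n := by
      intro x hx
      have hxq : x * q ≤ b * q := Nat.mul_le_mul_right _ hx
      rcases hp0 with h | h
      · subst h; omega
      · subst h; omega
    funext j
    rw [hc]
    have e1 : (((p0 + a * q : ℕ) : ℤ) + t) = ((p0 + a * q + t : ℕ) : ℤ) := by push_cast; ring
    have e2 : (((p0 + b * q : ℕ) : ℤ) + t) = ((p0 + b * q + t : ℕ) : ℤ) := by push_cast; ring
    show conf e x0 n W ![(((p0 + a * q : ℕ) : ℤ) + t), j] =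
      conf e x0 n W ![(((p0 + b * q : ℕ) : ℤ) + t), j]
    rw [e1, e2]
    refine col_eq e hx0 hP0 hper hR hn hforced (w * (b - a)) ?_ (hpos b le_rfl).2
      (hpos a hab.le).1 (hpos b le_rfl).1 ?_ j
    · obtain ⟨m, rfl⟩ := Nat.exists_eq_add_of_lt hab
      have : a + m + 1 - a = m + 1 := by omega
      rw [this, hq]
      ring
    · intro j2 hj2
      exact congrFun (congrFun hF ⟨t, by omega⟩) ⟨j2, hj2⟩
  obtain ⟨a1, b1, hab1, hb1, heq1⟩ := key 0 (Or.inl rfl)
  obtain ⟨a2, b2, hab2, hb2, heq2⟩ := key (n - S) (Or.inr rfl)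
  obtain ⟨m1, hm1⟩ := Nat.exists_eq_add_of_lt hab1
  obtain ⟨m2, hm2⟩ := Nat.exists_eq_add_of_lt hab2
  have hb1q : b1 * q ≤ J * q := Nat.mul_le_mul_right _ hb1
  have hb2q : b2 * q ≤ J * q := Nat.mul_le_mul_right _ hb2
  have e1 : b1 * q = a1 * q + (m1 + 1) * q := by rw [hm1]; ring
  have e2 : b2 * q = a2 * q + (m2 + 1) * q := by rw [hm2]; ring
  have hm1q : q ≤ (m1 + 1) * q := Nat.le_mul_of_pos_left _ (by omega)
  have hm2q : q ≤ (m2 + 1) * q := Nat.le_mul_of_pos_left _ (by omega)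
  obtain ⟨c', hc1, hc2⟩ := ext_both
    (fun f : ℕ → ℤ → A => ∀ P ∈ L, ∀ j : ℤ, ¬ ∀ s ∈ P.supp, f (s 0 + R).toNat (j + s 1) = P.val s) w
    (by omega) (by
      intro f g hfg hf P hP j hall
      refine hf P hP j (fun s hs => ?_)
      have := abs_le.1 (hR P hP s hs 0)
      rw [hfg _ (by omega)]
      exact hall s hs) c ((a1 * q : ℕ) : ℤ) ((n - S + a2 * q : ℕ) : ℤ) ((m2 + 1) * q)
    ((m1 + 1) * q) (by omega) (by omega) (by omega) (by
      intro i hi1 hi2 P hP j hall
      have hi3 : i + 2 * R < n := by omega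
      refine hwin P hP ![i + R, j] (by simp; omega) (by simp; omega) ?_
      intro s hs
      rw [← hall s hs, hc]
      have := abs_le.1 (hR P hP s hs 0)
      show conf e x0 n W (![i + R, j] + s) = conf e x0 n W ![i + ((s 0 + R).toNat : ℕ), j + s 1]
      congr 1
      funext a
      fin_cases a
      · simp; omega
      · simp) (by
      intro t ht
      have h := heq2 t ht
      rw [h]
      congr 1
      omega) (by
      intro t ht
      have h := heq1 t ht
      simp only [zero_add] at h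
      rw [h]
      congr 1
      omega)
  refine ⟨fun v => c' (v 0) (v 1), ?_, ?_⟩
  · intro P hP v hocc
    refine hc2 (v 0 - R) P hP (v 1) (fun s hs => ?_)
    rw [← hocc s hs]
    have := abs_le.1 (hR P hP s hs 0)
    show c' (v 0 - R + ((s 0 + R).toNat : ℕ)) (v 1 + s 1) = c' ((v + s) 0) ((v + s) 1)
    have e3 : v 0 - R + (((s 0 + R).toNat : ℕ) : ℤ) = (v + s) 0 := by
      rw [Pi.add_apply]
      omega
    rw [e3]
    rfl
  · intro v hv1 hv2
    show c' (v 0) (v 1) = _
    rw [hc1 (v 0) (by omega) (by omega), hc]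
    show conf e x0 n W ![v 0, v 1] = _
    rw [vec_eta]

/-- **Upper bound.** -/
theorem codes2_le {n : ℕ} (hn : 2 * M ≤ n) (hnS : 2 * S ≤ n)
    (hS : Nat.card (Fin (2 * R + 1) → Fin (2 * M) → A) * ((2 * R + 1) * P0) + (2 * R + 1) ≤ S) :
    codes2 L e x0 P0 R M S n ≤ patternCount (sft L) n *
      Nat.card (Fin (2 * S) → Fin (2 * M) → A) := by
  classical
  rw [patternCount_eq_card, ← Nat.card_prod]
  have hex : ∀ w : {w : List Bool // w.length = k * n ^ 2 ∧
      good2 L e x0 P0 R M S n (valB w) = true}, ∃ y ∈ sft L, ∀ v : Fin 2 → ℤ,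
      (S : ℤ) ≤ v 0 → v 0 + S < n → y v = conf e x0 n (valB w.1) v :=
    fun w => exists_point e hx0 hP0 hper hR hn hnS hS w.2.2
  choose y hy hyc using hex
  have : Finite (Fin (2 * S) → Fin (2 * M) → A) := inferInstance
  refine Nat.card_le_card_of_injective (fun w => (⟨fun v : cube 2 n => y w v, y w, hy w, rfl⟩,
    fun (i : Fin (2 * S)) (j : Fin (2 * M)) =>
      conf e x0 n (valB w.1) ![((row S n i : ℕ) : ℤ), ((row M n j : ℕ) : ℤ)])) ?_
  intro w w' h
  simp only [Prod.mk.injEq, Subtype.mk.injEq] at h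
  obtain ⟨h1, h2⟩ := h
  obtain ⟨hW, hF, _⟩ := (good2_iff e hx0 hP0 hper hR M S n _).1 w.2.2
  obtain ⟨hW', hF', _⟩ := (good2_iff e hx0 hP0 hper hR M S n _).1 w'.2.2
  apply Subtype.ext
  refine valB_inj _ _ (w.2.1.trans w'.2.1.symm) (conf_inj e x0 hW hW' ?_ ?_ ?_)
  · have := valB_lt w.1; rwa [w.2.1] at this
  · have := valB_lt w'.1; rwa [w'.2.1] at this
  · intro v hv
    obtain ⟨i, hi⟩ := Int.eq_ofNat_of_zero_le (hv 0).1
    obtain ⟨j, hj⟩ := Int.eq_ofNat_of_zero_le (hv 1).1
    have hv' : v = ![(i : ℤ), (j : ℤ)] := by rw [← vec_eta v, hi, hj]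
    have hin : i < n := by have := (hv 0).2; omega
    have hjn : j < n := by have := (hv 1).2; omega
    by_cases hc : S ≤ i ∧ i + S < n
    · rw [← hyc w v (by omega) (by omega), ← hyc w' v (by omega) (by omega)]
      exact congrFun h1 ⟨v, hv⟩
    · rw [hv']
      by_cases hg : j < M ∨ n ≤ j + M
      · obtain ⟨i2, hi2, hi3⟩ := exists_row (M := S) hnS hin (by omega)
        obtain ⟨j2, hj2, hj3⟩ := exists_row hn hjn hg
        have h3 := congrFun (congrFun h2 ⟨i2, hi2⟩) ⟨j2, hj2⟩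
        simp only [hi3, hj3] at h3
        exact h3
      · have hnf : ¬ Free M S n i j := by unfold Free; omega
        rw [hF i j hin hjn hnf, hF' i j hin hjn hnf]

theorem codes2_pos (n : ℕ) : 0 < codes2 L e x0 P0 R M S n := by
  obtain ⟨w, h1, h2, h3⟩ := exists_code e x0 n x0 (fun _ _ => rfl)
  have : Finite {w : List Bool // w.length = k * n ^ 2 ∧
    good2 L e x0 P0 R M S n (valB w) = true} := finite_len _ _
  have : Nonempty {w : List Bool // w.length = k * n ^ 2 ∧
      good2 L e x0 P0 R M S n (valB w) = true} :=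
    ⟨⟨w, h1, (good2_iff e hx0 hP0 hper hR M S n _).2 ⟨h2, by rw [h3]; intro i j _ _ _; rfl, by
      rw [h3]; exact fun P hP v _ _ => hx0 P hP v⟩⟩⟩
  exact Nat.card_pos

/-- **Lower bound.** -/
theorem le_codes2 (hX : Glue (sft L) M) (n : ℕ) :
    patternCount (sft L) n ≤ codes2 L e x0 P0 R M S (n + 2 * (S + M)) := by
  classical
  rw [patternCount_eq_card]
  obtain ⟨N, hN⟩ : ∃ N : ℕ, N = n + 2 * (S + M) := ⟨_, rfl⟩
  rw [← hN]
  have hex : ∀ p : pats (sft L) n, ∃ w : {w : List Bool // w.length = k * N ^ 2 ∧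
      good2 L e x0 P0 R M S N (valB w) = true},
      ∀ v : cube 2 n, conf e x0 N (valB w.1) ![v.1 0 + S + M, v.1 1 + M] = p.1 v := by
    rintro ⟨_, x, hx, rfl⟩
    obtain ⟨z1, hz1, h11, h12⟩ := hX.hor _ (hX.shift x hx (-((S : ℤ) + M)) (-(M : ℤ))) x0 hx0
      ((S : ℤ) + M) ((N : ℤ) - S - M) M ((N : ℤ) - M) ((N : ℤ) - S) N M ((N : ℤ) - M) (by omega)
    obtain ⟨z2, hz2, h21, h22⟩ := hX.hor x0 hx0 z1 hz1
      0 S M ((N : ℤ) - M) ((S : ℤ) + M) N M ((N : ℤ) - M) (by omega)
    obtain ⟨z3, hz3, h31, h32⟩ := hX.ver z2 hz2 x0 hx0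
      0 N M ((N : ℤ) - M) 0 N N ((N : ℤ) + 2 * R) (by omega)
    obtain ⟨z4, hz4, h41, h42⟩ := hX.ver x0 hx0 z3 hz3
      0 N (-(2 * (R : ℤ))) 0 0 N M ((N : ℤ) + 2 * R) (by omega)
    -- the configuration
    obtain ⟨z, hzdef⟩ : ∃ z : (Fin 2 → ℤ) → A, z = fun v : Fin 2 → ℤ =>
      if (0 ≤ v 0 ∧ v 0 < (N : ℤ) ∧ 0 ≤ v 1 ∧ v 1 < (N : ℤ)) then z4 v else x0 v := ⟨_, rfl⟩
    have hz : ∀ i j : ℤ, 0 ≤ i → i < N → -(2 * (R : ℤ)) ≤ j → j < N + 2 * R →
        z ![i, j] = z4 ![i, j] := by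
      intro i j hi1 hi2 hj1 hj2
      rw [hzdef]
      show (if (0 ≤ i ∧ i < (N : ℤ) ∧ 0 ≤ j ∧ j < (N : ℤ)) then z4 ![i, j] else x0 ![i, j]) = _
      split_ifs with h
      · rfl
      · rcases lt_or_ge j 0 with h' | h'
        · exact (h41 i j hi1 hi2 hj1 h').symm
        · have h'' : (N : ℤ) ≤ j := by
            by_contra hh
            exact h ⟨hi1, hi2, h', by omega⟩
          rw [h42 i j hi1 hi2 (by omega) hj2, h32 i j hi1 hi2 h'' hj2]
    have hzout : ∀ i j : ℤ, (j < 0 ∨ (N : ℤ) ≤ j) → z ![i, j] = x0 ![i, j] := by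
      intro i j hj
      rw [hzdef]
      show (if (0 ≤ i ∧ i < (N : ℤ) ∧ 0 ≤ j ∧ j < (N : ℤ)) then z4 ![i, j] else x0 ![i, j]) = _
      rw [if_neg (by omega)]
    have hmid : ∀ i j : ℤ, 0 ≤ i → i < N → (M : ℤ) ≤ j → j < (N : ℤ) - M →
        z4 ![i, j] = z2 ![i, j] := by
      intro i j hi1 hi2 hj1 hj2
      rw [h42 i j hi1 hi2 hj1 (by omega), h31 i j hi1 hi2 hj1 hj2]
    obtain ⟨w, h3, h4, h5⟩ := exists_code e x0 N z (fun v hv => by
      rw [hzdef]
      show (if (0 ≤ v 0 ∧ v 0 < (N : ℤ) ∧ 0 ≤ v 1 ∧ v 1 < (N : ℤ)) then z4 v else x0 v) = _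
      rw [if_neg]
      intro h
      apply hv
      intro a
      fin_cases a
      · exact ⟨h.1, h.2.1⟩
      · exact ⟨h.2.2.1, h.2.2.2⟩)
    refine ⟨⟨w, h3, (good2_iff e hx0 hP0 hper hR M S N _).2 ⟨h4, ?_, ?_⟩⟩, ?_⟩
    · rw [h5]
      intro i j hi hj hF
      unfold Free at hF
      rw [hz _ _ (by omega) (by omega) (by omega) (by omega),
        hmid _ _ (by omega) (by omega) (by omega) (by omega)]
      rcases Nat.lt_or_ge i S with h | h
      · exact h21 _ _ (by omega) (by omega) (by omega) (by omega)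
      · rw [h22 _ _ (by omega) (by omega) (by omega) (by omega),
          h12 _ _ (by omega) (by omega) (by omega) (by omega)]
    · rw [h5]
      intro P hP v hv1 hv2 hocc
      by_cases hv : -(R : ℤ) ≤ v 1 ∧ v 1 < N + R
      · refine hz4 P hP v (fun s hs => ?_)
        rw [← hocc s hs]
        have h6 := abs_le.1 (hR P hP s hs 0)
        have h7 := abs_le.1 (hR P hP s hs 1)
        have h8 := hz (v 0 + s 0) (v 1 + s 1) (by omega) (by omega) (by omega) (by omega)
        have h9 : v + s = ![v 0 + s 0, v 1 + s 1] := (vec_eta (v + s)).symm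
        rw [h9, h8]
      · refine hx0 P hP v (fun s hs => ?_)
        rw [← hocc s hs]
        have h7 := abs_le.1 (hR P hP s hs 1)
        have h8 := hzout (v 0 + s 0) (v 1 + s 1) (by omega)
        have h9 : v + s = ![v 0 + s 0, v 1 + s 1] := (vec_eta (v + s)).symm
        rw [h9, h8]
    · intro v
      have h01 := v.2 0
      have h02 := v.2 1
      show conf e x0 N (valB w) ![v.1 0 + S + M, v.1 1 + M] = x v.1
      rw [h5, hz _ _ (by omega) (by omega) (by omega) (by omega),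
        hmid _ _ (by omega) (by omega) (by omega) (by omega),
        h22 _ _ (by omega) (by omega) (by omega) (by omega),
        h11 _ _ (by omega) (by omega) (by omega) (by omega)]
      show x ![v.1 0 + S + M + -((S : ℤ) + M), v.1 1 + M + -(M : ℤ)] = x v.1
      congr 1
      rw [← vec_eta v.1]
      funext a
      fin_cases a
      · simp
      · simp
  choose Φ hΦ using hex
  have : Finite {w : List Bool // w.length = k * N ^ 2 ∧
      good2 L e x0 P0 R M S N (valB w) = true} := finite_len _ _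
  refine Nat.card_le_card_of_injective Φ ?_
  intro p p' h
  apply Subtype.ext
  funext v
  rw [← hΦ p v, ← hΦ p' v, h]

theorem codes2_trivial (n : ℕ) : codes2 L e x0 P0 R M S n ≤ 2 ^ (k * n ^ 2) := by
  have h2 := Nat.card_le_card_of_injective
    (α := {w : List Bool // w.length = k * n ^ 2 ∧ good2 L e x0 P0 R M S n (valB w) = true})
    (β := Fin (2 ^ (k * n ^ 2)))
    (fun w => ⟨valB w.1, by have := valB_lt w.1; rwa [w.2.1] at this⟩) (by
      intro w w' h
      apply Subtype.ext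
      exact valB_inj _ _ (w.2.1.trans w'.2.1.symm) (congrArg Fin.val h))
  rwa [Nat.card_fin] at h2

/-- **The formula for block gluing.** -/
theorem formula2 {h : ℝ} (hent : HasEntropy (sft L) h) (hX : Glue (sft L) M) (hM : 1 ≤ M)
    (hS : Nat.card (Fin (2 * R + 1) → Fin (2 * M) → A) * ((2 * R + 1) * P0) + (2 * R + 1) ≤ S) :
    ∃ C : ℝ, ∀ n : ℕ, 1 ≤ n →
      |h - Real.log (codes2 L e x0 P0 R M S n) / (n : ℝ) ^ 2| ≤ C / n := by
  have hne : (sft L).Nonempty := ⟨x0, hx0⟩
  have h0 : 0 ≤ h := BG.entropy_nonneg hent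
  obtain ⟨U, hU⟩ : ∃ U : ℕ, U = Nat.card (Fin (2 * S) → Fin (2 * M) → A) := ⟨_, rfl⟩
  have hU0 : 0 < U := by
    have : Nonempty (Fin (2 * S) → Fin (2 * M) → A) := ⟨fun _ _ => x0 0⟩
    rw [hU]; exact Nat.card_pos
  have hUlog : 0 ≤ Real.log U := Real.log_nonneg (by exact_mod_cast hU0)
  obtain ⟨V, hV⟩ : ∃ V : ℕ, V = 2 * S + 2 * M := ⟨_, rfl⟩
  refine ⟨h * (2 * M + M * M) + Real.log U + (h + k) * V + 2 * h * V, fun n hn => ?_⟩
  have hn0 : (0 : ℝ) < n := by exact_mod_cast hn
  have hn1 : (1 : ℝ) ≤ n := by exact_mod_cast hn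
  have hnd : (0 : ℝ) < (n : ℝ) ^ 2 := by positivity
  have hcpos : (0 : ℝ) < codes2 L e x0 P0 R M S n := by
    exact_mod_cast codes2_pos e hx0 hP0 hper hR n
  have hlog0 : 0 ≤ Real.log (codes2 L e x0 P0 R M S n) := by
    apply Real.log_nonneg
    exact_mod_cast codes2_pos e hx0 hP0 hper hR n
  have hup : Real.log (codes2 L e x0 P0 R M S n) / (n : ℝ) ^ 2 ≤
      h + (h * (2 * M + M * M) + Real.log U + (h + k) * V) / n := by
    have hA : 0 ≤ h * (2 * M + M * M) := by positivity
    have hB : 0 ≤ (h + k) * V := by positivity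
    rcases Nat.lt_or_ge n V with hlt | hge
    · have h1 : Real.log (codes2 L e x0 P0 R M S n) ≤ k * (n : ℝ) ^ 2 := by
        have h2 : Real.log (codes2 L e x0 P0 R M S n) ≤ Real.log ((2 ^ (k * n ^ 2) : ℕ) : ℝ) :=
          Real.log_le_log hcpos (by exact_mod_cast codes2_trivial e hx0 hP0 hper hR n)
        rw [Nat.cast_pow, Real.log_pow] at h2
        have h3 : Real.log ((2 : ℕ) : ℝ) ≤ 1 := by
          have := BG.log_two_bounds.2
          exact_mod_cast this
        refine h2.trans ?_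
        push_cast at h3 ⊢
        have h4 : (0 : ℝ) ≤ k * (n : ℝ) ^ 2 := by positivity
        nlinarith
      have h5 : Real.log (codes2 L e x0 P0 R M S n) / (n : ℝ) ^ 2 ≤ k := by
        rw [div_le_iff₀ hnd]; exact h1
      have h6 : (k : ℝ) ≤ (h * (2 * M + M * M) + Real.log U + (h + k) * V) / n := by
        rw [le_div_iff₀ hn0]
        have h7 : (n : ℝ) ≤ V := by exact_mod_cast hlt.le
        have h8 : (k : ℝ) * n ≤ (h + k) * V := by
          have : (0 : ℝ) ≤ k := by positivity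
          nlinarith
        linarith
      linarith
    · have h1 : Real.log (codes2 L e x0 P0 R M S n) ≤
          Real.log (patternCount (sft L) n) + Real.log U := by
        rw [← Real.log_mul (by exact_mod_cast (patternCount_pos hne n).ne')
          (by exact_mod_cast hU0.ne')]
        refine Real.log_le_log hcpos ?_
        have := codes2_le e hx0 hP0 hper hR (M := M) (S := S) (n := n) (by omega) (by omega) hS
        rw [← hU] at this
        exact_mod_cast this
      have h2 := log_rc_le hent hne hM hX n n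
      rw [← patternCount_eq] at h2
      rw [div_le_iff₀ hnd]
      have h3 : (h + (h * (2 * M + M * M) + Real.log U + (h + k) * V) / n) * (n : ℝ) ^ 2 =
          h * (n : ℝ) ^ 2 + (h * (2 * M + M * M) + Real.log U + (h + k) * V) * n := by
        field_simp
      rw [h3]
      have h4 : h * ((n + M : ℝ) * (n + M)) ≤ h * (n : ℝ) ^ 2 + h * (2 * M + M * M) * n := by
        have h5 : ((n + M : ℝ) * (n + M)) ≤ (n : ℝ) ^ 2 + (2 * M + M * M) * n := by
          have : (0 : ℝ) ≤ (M : ℝ) * M := by positivity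
          nlinarith
        calc h * ((n + M : ℝ) * (n + M)) ≤ h * ((n : ℝ) ^ 2 + (2 * M + M * M) * n) := by gcongr
          _ = _ := by ring
      have h6 : Real.log U ≤ Real.log U * n := le_mul_of_one_le_right hUlog hn1
      have h7 : 0 ≤ (h + k) * V * n := by positivity
      calc Real.log (codes2 L e x0 P0 R M S n)
          ≤ h * ((n + M : ℝ) * (n + M)) + Real.log U := by linarith
        _ ≤ _ := by linarith
  have hlow : h - 2 * h * V / n ≤ Real.log (codes2 L e x0 P0 R M S n) / (n : ℝ) ^ 2 := by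
    rcases Nat.lt_or_ge V n with hlt | hge
    · obtain ⟨m, hm⟩ := Nat.exists_eq_add_of_lt hlt
      have hm1 : n = (m + 1) + 2 * (S + M) := by omega
      have h1 := entropy_le hent (sft_shift L) hne (m + 1) (by omega)
      have h2 : Real.log (patternCount (sft L) (m + 1)) ≤
          Real.log (codes2 L e x0 P0 R M S n) := by
        refine Real.log_le_log (by exact_mod_cast patternCount_pos hne _) ?_
        have := le_codes2 e hx0 hP0 hper hR (S := S) hX (m + 1)
        rw [← hm1] at this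
        exact_mod_cast this
      rw [le_div_iff₀ hnd]
      have h3 : ((m + 1 : ℕ) : ℝ) = n - V := by
        have h4 : (n : ℝ) = ((m + 1 : ℕ) : ℝ) + V := by
          have : n = (m + 1) + V := by omega
          exact_mod_cast this
        linarith
      have h5 : (h - 2 * h * V / n) * (n : ℝ) ^ 2 = h * ((n : ℝ) ^ 2 - 2 * V * n) := by
        field_simp
      rw [h5]
      refine le_trans ?_ (h1.trans h2)
      rw [h3]
      have h6 : (n : ℝ) ^ 2 - 2 * V * n ≤ (n - V) ^ 2 := by nlinarith [sq_nonneg (V : ℝ)]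
      gcongr
    · have h1 : h - 2 * h * V / n ≤ 0 := by
        have h2 : h ≤ 2 * h * V / n := by
          rw [le_div_iff₀ hn0]
          have h3 : (n : ℝ) ≤ V := by exact_mod_cast hge
          nlinarith
        linarith
      exact h1.trans (div_nonneg hlog0 hnd.le)
  have hA : 0 ≤ (h * (2 * M + M * M) + Real.log U + (h + k) * V) / n := by positivity
  have hB : 0 ≤ 2 * h * V / n := by positivity
  have hC : (h * (2 * M + M * M) + Real.log U + (h + k) * V + 2 * h * V) / n =
    (h * (2 * M + M * M) + Real.log U + (h + k) * V) / n + 2 * h * V / n := by ring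
  rw [hC, abs_le]
  constructor <;> linarith

end

end Pool.Agent.Helper785.SP
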