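import Pool.Agent.Helper785_SP.Ent

/-!
# Periodic points of strongly irreducible shifts of finite type on `ℤ ^ 2`
-/

set_option autoImplicit false

namespace Pool.Agent.Helper785.SP

open Pool.Agent.Helper785.SIEnt Filter

variable {d : ℕ} {A : Type}

/-- `x` has the period `P` in every coordinate direction. -/
def IsPer (P : ℕ) (x : (Fin d → ℤ) → A) : Prop :=
  ∀ v u : Fin d → ℤ, x (fun i => v i + (P : ℤ) * u i) = x v

theorem exists_radius (L : List (Pattern d A)) :
    ∃ r : ℕ, ∀ P ∈ L, ∀ s ∈ P.supp, ∀ i, |s i| ≤ (r : ℤ) := by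
  classical
  induction L with
  | nil => exact ⟨0, fun P hP => absurd hP (by simp)⟩
  | cons P L ih =>
    obtain ⟨r, hr⟩ := ih
    obtain ⟨R, hR⟩ : ∃ R : ℕ, ∀ s ∈ P.supp, ∀ i, |s i| ≤ (R : ℤ) := by
      refine ⟨P.supp.sup (fun s => Finset.univ.sup (fun i => (s i).natAbs)), ?_⟩
      intro s hs i
      have h1 : (s i).natAbs ≤ Finset.univ.sup (fun i => (s i).natAbs) :=
        Finset.le_sup (f := fun i => (s i).natAbs) (Finset.mem_univ i)
      have h2 := Finset.le_sup (f := fun s : Fin d → ℤ => Finset.univ.sup (fun i => (s i).natAbs)) hs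
      rw [Int.abs_eq_natAbs]
      exact_mod_cast h1.trans h2
    refine ⟨max r R, ?_⟩
    intro Q hQ s hs i
    rcases List.mem_cons.1 hQ with rfl | hQ
    · exact (hR s hs i).trans (by exact_mod_cast le_max_right r R)
    · exact (hr Q hQ s hs i).trans (by exact_mod_cast le_max_left r R)

/-- Periodisation in the direction `j`. -/
def pz (j : Fin d) (T : ℕ) (z : (Fin d → ℤ) → A) : (Fin d → ℤ) → A :=
  fun v => z (Function.update v j (v j % (T : ℤ)))

theorem pz_mem {L : List (Pattern d A)} {r : ℕ}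
    (hr : ∀ P ∈ L, ∀ s ∈ P.supp, ∀ i, |s i| ≤ (r : ℤ)) (j : Fin d) {T : ℕ} (hT : r < T)
    {z : (Fin d → ℤ) → A} (hz : z ∈ sft L)
    (hper : ∀ v : Fin d → ℤ, |v j| ≤ r → z (Function.update v j (v j + T)) = z v) :
    pz j T z ∈ sft L := by
  classical
  intro P hP v hocc
  refine hz P hP (Function.update v j (v j % (T : ℤ))) ?_
  intro s hs
  rw [← hocc s hs]
  have hT0 : (0 : ℤ) < T := by exact_mod_cast (by omega : 0 < T)
  have hrT : (r : ℤ) < T := by exact_mod_cast hT
  have hs1 := abs_le.1 (hr P hP s hs j)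
  have ht0 := Int.emod_nonneg (v j) hT0.ne'
  have ht1 := Int.emod_lt_of_pos (v j) hT0
  set t : ℤ := v j % (T : ℤ) + s j with ht
  have e1 : Function.update v j (v j % (T : ℤ)) + s = Function.update (v + s) j t := by
    funext i
    by_cases hi : i = j
    · subst hi; simp [ht]
    · simp [Function.update_of_ne hi]
  have e3 : (v j + s j) % (T : ℤ) = t % (T : ℤ) := by
    rw [ht]; simp [Int.add_emod]
  have e2 : pz j T z (v + s) = z (Function.update (v + s) j (t % (T : ℤ))) := by
    unfold pz
    rw [Pi.add_apply, e3]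
  rw [e1, e2]
  have hup : ∀ a b : ℤ, Function.update (Function.update (v + s) j a) j b =
      Function.update (v + s) j b := fun a b => by simp
  rcases lt_or_ge t 0 with h | h
  · have h1 : t % (T : ℤ) = t + T := by
      rw [← Int.add_emod_right, Int.emod_eq_of_lt (by linarith [hs1.1]) (by linarith)]
    have h2 := hper (Function.update (v + s) j t) (by
      rw [Function.update_self, abs_le]; constructor <;> linarith [hs1.1])
    rw [Function.update_self, hup] at h2
    rw [h1, h2]
  · rcases lt_or_ge t T with h' | h'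
    · rw [Int.emod_eq_of_lt h h']
    · have h1 : t % (T : ℤ) = t - T := by
        rw [← Int.sub_emod_right, Int.emod_eq_of_lt (by linarith) (by linarith [hs1.2])]
      have h2 := hper (Function.update (v + s) j (t - T)) (by
        rw [Function.update_self, abs_le]; constructor <;> linarith [hs1.2])
      rw [Function.update_self, hup, sub_add_cancel] at h2
      rw [h1, h2]

theorem pz_per (j : Fin d) (T : ℕ) (z : (Fin d → ℤ) → A) (v : Fin d → ℤ) (n : ℤ) :
    pz j T z (Function.update v j (v j + T * n)) = pz j T z v := by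
  unfold pz
  simp

/-- A nonempty strongly irreducible shift of finite type on `ℤ²` has a periodic point. -/
theorem exists_periodic [Finite A] {L : List (Pattern 2 A)} {M : ℕ} (hM : GlueM (sft L) M)
    (hne : (sft L).Nonempty) : ∃ P : ℕ, 1 ≤ P ∧ ∃ x ∈ sft L, IsPer P x := by
  classical
  obtain ⟨r, hr⟩ := exists_radius L
  obtain ⟨x, hx⟩ := hne
  obtain ⟨T, hT⟩ : ∃ T : ℕ, T = M + 2 * r + 1 := ⟨_, rfl⟩
  have hTz : (T : ℤ) = M + 2 * r + 1 := by rw [hT]; push_cast; ring
  -- vertical periodisation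
  obtain ⟨z, hz, h1, h2⟩ := hM {v | |v 1| ≤ r} {v | |v 1 - T| ≤ r} (by
    intro u hu v hv
    refine ⟨1, ?_⟩
    have hu' := abs_le.1 (show |u 1| ≤ r from hu)
    have hv' := abs_le.1 (show |v 1 - T| ≤ r from hv)
    rw [abs_sub_comm]
    refine le_trans ?_ (le_abs_self _)
    linarith [hu'.2, hv'.1]) x hx (fun v => x (v + fun i => if i = 1 then -(T : ℤ) else 0))
    (sft_shift L x hx _)
  have hz1 : pz 1 T z ∈ sft L := by
    refine pz_mem hr 1 (by omega) hz (fun v hv => ?_)
    rw [h1 v hv, h2 (Function.update v 1 (v 1 + T)) (by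
      show |Function.update v 1 (v 1 + (T : ℤ)) 1 - T| ≤ r
      rw [Function.update_self, add_sub_cancel_right]
      exact hv)]
    congr 1
    funext i
    by_cases hi : i = 1
    · subst hi; simp
    · simp [Function.update_of_ne hi, hi]
  -- horizontal repetition
  set y := pz 1 T z with hy
  have hyper : ∀ v (n : ℤ), y (Function.update v 1 (v 1 + T * n)) = y v := pz_per 1 T z
  obtain ⟨i, i', hii, hφ⟩ := Finite.exists_ne_map_eq_of_infinite
    (fun i : ℕ => fun (a : Fin (2 * r + 1)) (b : Fin T) =>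
      y ![(i : ℤ) * (2 * r + 1) + (a : ℕ) - r, ((b : ℕ) : ℤ)])
  wlog hlt : i < i' generalizing i i' with H
  · exact H i' i hii.symm hφ.symm (by omega)
  obtain ⟨D, hD⟩ : ∃ D : ℕ, D = (i' - i) * (2 * r + 1) := ⟨_, rfl⟩
  have hDr : r < D := by
    rw [hD]
    have : 1 ≤ i' - i := by omega
    nlinarith
  have hDz : (D : ℤ) = ((i' : ℤ) - i) * (2 * r + 1) := by
    rw [hD]; push_cast [Nat.cast_sub hlt.le]; ring
  obtain ⟨w, hw⟩ : ∃ w : (Fin 2 → ℤ) → A,
      w = fun v => y (v + fun t => if t = 0 then (i : ℤ) * (2 * r + 1) else 0) := ⟨_, rfl⟩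
  have hwL : w ∈ sft L := by rw [hw]; exact sft_shift L y hz1 _
  have hTpos : (0 : ℤ) < T := by rw [hTz]; positivity
  have hyv : ∀ a b : ℤ, y ![a, b] = y ![a, b % T] := by
    intro a b
    have := hyper ![a, b % T] (b / T)
    have e : Function.update (![a, b % T] : Fin 2 → ℤ) 1 ((![a, b % T] : Fin 2 → ℤ) 1 + T * (b / T)) =
        ![a, b] := by
      funext t
      fin_cases t
      · simp
      · simp [Int.emod_add_mul_ediv]
    rw [e] at this
    exact this
  have hrep : ∀ v : Fin 2 → ℤ, |v 0| ≤ r → w (Function.update v 0 (v 0 + D)) = w v := by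
    intro v hv
    have hv' := abs_le.1 hv
    have e1 : ∀ u : Fin 2 → ℤ, w u = y ![u 0 + (i : ℤ) * (2 * r + 1), u 1 % T] := by
      intro u
      rw [hw]
      show y (u + fun t => if t = 0 then (i : ℤ) * (2 * r + 1) else 0) = _
      rw [← hyv]
      congr 1
      funext t
      fin_cases t <;> simp
    rw [e1, e1]
    have ha : (v 0 + r).toNat < 2 * r + 1 := by omega
    have hb : (v 1 % T).toNat < T := by
      have := Int.emod_nonneg (v 1) hTpos.ne'
      have := Int.emod_lt_of_pos (v 1) hTpos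
      omega
    have h3 := congrFun (congrFun hφ ⟨(v 0 + r).toNat, ha⟩) ⟨(v 1 % T).toNat, hb⟩
    simp only at h3
    rw [Int.toNat_of_nonneg (by linarith [hv'.1]),
      Int.toNat_of_nonneg (Int.emod_nonneg (v 1) hTpos.ne')] at h3
    have e2 : (Function.update v 0 (v 0 + (D : ℤ))) 0 + (i : ℤ) * (2 * r + 1) =
        (i' : ℤ) * (2 * r + 1) + (v 0 + r) - r := by
      rw [Function.update_self, hDz]; ring
    have e3 : v 0 + (i : ℤ) * (2 * r + 1) = (i : ℤ) * (2 * r + 1) + (v 0 + r) - r := by ring
    have e4 : (Function.update v 0 (v 0 + (D : ℤ))) 1 = v 1 := by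
      simp [Function.update_of_ne]
    rw [e2, e3, e4]
    exact h3.symm
  have hwL' := pz_mem hr 0 hDr hwL hrep
  have hper0 : ∀ v (n : ℤ), pz 0 D w (Function.update v 0 (v 0 + D * n)) = pz 0 D w v :=
    pz_per 0 D w
  have hwper : ∀ v (n : ℤ), w (Function.update v 1 (v 1 + T * n)) = w v := by
    intro v n
    rw [hw]
    show y _ = y _
    have := hyper (v + fun t => if t = 0 then (i : ℤ) * (2 * r + 1) else 0) n
    rw [← this]
    congr 1
    funext t
    fin_cases t <;> simp
  have hper1 : ∀ v (n : ℤ), pz 0 D w (Function.update v 1 (v 1 + T * n)) = pz 0 D w v := by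
    intro v n
    unfold pz
    rw [← hwper (Function.update v 0 (v 0 % (D : ℤ))) n]
    congr 1
    funext t
    fin_cases t <;> simp
  refine ⟨D * T, ?_, pz 0 D w, hwL', ?_⟩
  · have : 0 < T := by omega
    exact Nat.mul_pos (by omega) this
  · intro v u
    have e : (fun t => v t + ((D * T : ℕ) : ℤ) * u t) =
        Function.update (Function.update v 0 (v 0 + D * (T * u 0))) 1
          ((Function.update v 0 (v 0 + D * (T * u 0))) 1 + T * (D * u 1)) := by
      funext t
      fin_cases t
      · simp; ring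
      · simp; ring
    rw [e, hper1, hper0]

end Pool.Agent.Helper785.SP
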