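import Pool.Agent.Helper785_SP.Cnt
import Pool.Agent.Helper785_BG.Algo
import Pool.Agent.H527R2.SharpP

/-!
# The verifier runs in polynomial time
-/

set_option autoImplicit false

namespace Pool.Agent.Helper785.SP

open Pool.Agent.Helper785.SIEnt
open Pool.Agent.Helper785.BG (dg poly_pow)
open Pool.Agent.NPC

section

variable {β : Type} [TEnc β]

theorem poly_all_const {ι : Type} (l : List ι) (f : ι → β → Bool) (h : ∀ i ∈ l, Poly (f i)) :
    Poly (fun b => l.all (fun i => f i b)) := by
  induction l with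
  | nil => exact (NPC.Poly.const true).congr (fun _ => rfl)
  | cons i l ih =>
    refine (Poly.and (h i List.mem_cons_self)
      (ih (fun j hj => h j (List.mem_cons_of_mem _ hj)))).congr (fun b => ?_)
    rw [List.all_cons]

theorem poly_sum_const {ι : Type} (s : Finset ι) (f : ι → β → ℕ) (h : ∀ i ∈ s, Poly (f i)) :
    Poly (fun b => ∑ i ∈ s, f i b) := by
  classical
  induction s using Finset.induction_on with
  | empty => exact (NPC.Poly.const 0).congr (fun _ => by simp)
  | insert i s hi ih =>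
    refine (Poly.add (h i (Finset.mem_insert_self _ _))
      (ih (fun j hj => h j (Finset.mem_insert_of_mem hj)))).congr (fun b => ?_)
    rw [Finset.sum_insert hi]

theorem poly_bounded (B : ℕ) (φ : ℕ → Bool) {g : β → ℕ} (hg : Poly g) (hB : ∀ b, g b < B) :
    Poly (fun b => φ (g b)) := by
  refine (Poly.decide_mem hg (NPC.Poly.const ((List.range B).filter φ))).congr (fun b => ?_)
  rw [Bool.eq_iff_iff]
  simp [hB b]

theorem upoly_pow {n : β → ℕ} (hn : UPoly n) (i : ℕ) : UPoly (fun b => n b ^ i) := by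
  have := UPoly.eval hn (Polynomial.X ^ i)
  simpa using this

theorem poly_dgn {n q : β → ℕ} (hn : UPoly n) (hq : Poly q) (i : ℕ) :
    Poly (fun b => dg (n b) (q b) i) :=
  Poly.mod (Poly.div hq (upoly_pow hn i).toPoly) hn.toPoly

theorem poly_dgW (K : ℕ) {m W q : β → ℕ} (hm : UPoly m) (hW : Poly W) (hq : Poly q) :
    Poly (fun b => dg K (W b) (min (q b) (m b))) :=
  Poly.mod (Poly.div hW (poly_pow K
    (UPoly.of_le (Poly.min hq hm.toPoly) hm (fun b => min_le_right _ _)))) (NPC.Poly.const _)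

variable {d : ℕ} {A : Type} {k : ℕ}

theorem poly_idx {n : β → ℕ} (hn : UPoly n) {t : Fin d → β → ℕ} (ht : ∀ i, Poly (t i)) :
    Poly (fun b => idx (n b) (fun i => t i b)) :=
  poly_sum_const Finset.univ (fun (i : Fin d) b => t i b * n b ^ (i : ℕ))
    (fun i _ => Poly.mul (ht i) (upoly_pow hn i).toPoly)

theorem poly_tst (e : A ≃ Fin k) (x0 : (Fin d → ℤ) → A) {P0 : ℕ} (hP0 : 1 ≤ P0) (R : ℕ)
    {n W : β → ℕ} {u : Fin d → β → ℕ} (hn : UPoly n) (hW : Poly W) (hu : ∀ i, Poly (u i))
    (s : Fin d → ℤ) (a : A) :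
    Poly (fun b => tst e x0 P0 R (n b) (W b) (fun i => u i b) s a) := by
  classical
  obtain ⟨t, ht'⟩ : ∃ t : Fin d → β → ℕ, t = fun i b => u i b + (s i + R).toNat := ⟨_, rfl⟩
  have ht : ∀ i, Poly (t i) := by
    intro i
    rw [ht']
    exact Poly.add (hu i) (NPC.Poly.const _)
  obtain ⟨φ, hφ⟩ : ∃ φ : ℕ → Bool, φ = fun c =>
    decide (x0 (fun i : Fin d => ((dg P0 c i : ℕ) : ℤ) - 2 * R) = a) := ⟨_, rfl⟩
  have h1 : Poly (fun b => (List.finRange d).all
      (fun i => decide (2 * R ≤ t i b ∧ t i b < n b + 2 * R))) :=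
    poly_all_const _ (fun i b => decide (2 * R ≤ t i b ∧ t i b < n b + 2 * R)) (fun i _ =>
      Poly.decide_and (p := fun b => 2 * R ≤ t i b) (q := fun b => t i b < n b + 2 * R)
        (Poly.decide_le (NPC.Poly.const _) (ht i))
        (Poly.decide_lt (ht i) (Poly.add hn.toPoly (NPC.Poly.const _))))
  have h2 : Poly (fun b => decide (dg (2 ^ k) (W b)
      (min (idx (n b) (fun i => t i b - 2 * R)) (n b ^ d)) = (e a : ℕ))) :=
    Poly.decide_eq (poly_dgW (2 ^ k) (upoly_pow hn d) hW
      (poly_idx hn (t := fun i b => t i b - 2 * R)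
        (fun i => Poly.sub (ht i) (NPC.Poly.const _)))) (NPC.Poly.const _)
  have h3 : Poly (fun b => φ (idx P0 (fun i => t i b % P0))) :=
    poly_bounded (P0 ^ d) φ (poly_idx (UPoly.const P0) (t := fun i b => t i b % P0)
      (fun i => Poly.mod (ht i) (NPC.Poly.const _))) (fun b => idx_lt _ (fun i => Nat.mod_lt _ hP0))
  refine (Poly.cond h1 h2 h3).congr (fun b => ?_)
  unfold tst
  have hall : (List.finRange d).all (fun i => decide (2 * R ≤ t i b ∧ t i b < n b + 2 * R)) =
      true ↔ ∀ i, 2 * R ≤ u i b + (s i + R).toNat ∧ u i b + (s i + R).toNat < n b + 2 * R := by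
    simp only [List.all_eq_true, decide_eq_true_eq, ht']
    exact ⟨fun h i => h i (List.mem_finRange i), fun h i _ => h i⟩
  by_cases h : ∀ i, 2 * R ≤ u i b + (s i + R).toNat ∧ u i b + (s i + R).toNat < n b + 2 * R
  · rw [if_pos h, hall.2 h, cond_true]
    have h4 : idx (n b) (fun i => t i b - 2 * R) < n b ^ d := by
      refine idx_lt _ (fun i => ?_)
      have := h i
      rw [ht']
      show u i b + (s i + R).toNat - 2 * R < n b
      omega
    rw [min_eq_left h4.le, ht']
  · have h5 : (List.finRange d).all (fun i => decide (2 * R ≤ t i b ∧ t i b < n b + 2 * R)) =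
        false := by
      rw [← Bool.not_eq_true]
      exact fun h' => h (hall.1 h')
    rw [if_neg h, h5, cond_false, hφ]
    have h6 : (fun i : Fin d => ((dg P0 (idx P0 (fun i => t i b % P0)) i : ℕ) : ℤ) - 2 * R) =
        (fun i => (((u i b + (s i + R).toNat) % P0 : ℕ) : ℤ) - 2 * R) := by
      funext i
      rw [dg_idx _ (fun i => Nat.mod_lt _ hP0), ht']
    show decide (x0 (fun i : Fin d => ((dg P0 (idx P0 (fun i => t i b % P0)) i : ℕ) : ℤ) - 2 * R)
      = a) = _
    rw [h6]

theorem poly_good (L : List (Pattern d A)) (e : A ≃ Fin k) (x0 : (Fin d → ℤ) → A) {P0 : ℕ}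
    (hP0 : 1 ≤ P0) (R : ℕ) {n W : β → ℕ} (hn : UPoly n) (hW : Poly W) :
    Poly (fun b => good L e x0 P0 R (n b) (W b)) := by
  unfold good
  refine Poly.and ?_ ?_
  · have h1 : Poly (fun b => (List.range (n b ^ d)).all (fun q =>
        decide (dg (2 ^ k) (W b) (min q (n b ^ d)) < k))) := by
      refine Poly.all (p := fun b q => decide (dg (2 ^ k) (W b) (min q (n b ^ d)) < k))
        (upoly_pow hn d).range ?_
      have hb : Poly (fun p : β × ℕ => p.1) := Poly.fst Poly.id
      exact Poly.decide_lt (poly_dgW (2 ^ k) (m := fun p : β × ℕ => n p.1 ^ d)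
        (W := fun p => W p.1) (q := fun p => p.2)
        (upoly_pow (n := fun p : β × ℕ => n p.1) (hn.comp hb) d) (hW.comp hb)
        (Poly.snd Poly.id)) (NPC.Poly.const k)
    refine h1.congr (fun b => ?_)
    rw [Bool.eq_iff_iff]
    simp only [List.all_eq_true, List.mem_range, decide_eq_true_eq]
    refine forall₂_congr (fun q hq => ?_)
    rw [min_eq_left hq.le]
  · refine poly_all_const L (fun P b => (List.range ((n b + 2 * R) ^ d)).all (fun q =>
      ! P.supp.toList.all (fun s =>
        tst e x0 P0 R (n b) (W b) (fun i => dg (n b + 2 * R) q i) s (P.val s)))) (fun P _ => ?_)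
    have hb : Poly (fun p : β × ℕ => p.1) := Poly.fst Poly.id
    have hn' : UPoly (fun p : β × ℕ => n p.1) := hn.comp hb
    refine Poly.all (p := fun b q => ! P.supp.toList.all (fun s =>
        tst e x0 P0 R (n b) (W b) (fun i => dg (n b + 2 * R) q i) s (P.val s)))
      (upoly_pow (UPoly.add hn (UPoly.const _)) d).range ?_
    refine Poly.not (poly_all_const P.supp.toList (fun s (p : β × ℕ) =>
        tst e x0 P0 R (n p.1) (W p.1) (fun i => dg (n p.1 + 2 * R) p.2 i) s (P.val s))
      (fun s _ => ?_))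
    exact poly_tst e x0 hP0 R (n := fun p : β × ℕ => n p.1) (W := fun p => W p.1)
      (u := fun i p => dg (n p.1 + 2 * R) p.2 i) hn' (hW.comp hb)
      (fun i => poly_dgn (n := fun p : β × ℕ => n p.1 + 2 * R) (UPoly.add hn' (UPoly.const _))
        (Poly.snd Poly.id) i) s (P.val s)

end

variable {d : ℕ} {A : Type} {k : ℕ}

/-- The numbers of codes form a function in `#P`. -/
theorem sharpP_codes (L : List (Pattern d A)) (e : A ≃ Fin k) (x0 : (Fin d → ℤ) → A) {P0 : ℕ}
    (hP0 : 1 ≤ P0) (R : ℕ) :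
    Cnt.SharpP (fun x => codes L e x0 P0 R x.length) := by
  refine Cnt.sharpP_of_poly (fun p => good L e x0 P0 R p.1.length (valB p.2)) ?_
    (Polynomial.C k * Polynomial.X ^ d) (fun x => ?_)
  · exact poly_good L e x0 hP0 R (n := fun p : List Bool × List Bool => p.1.length)
      (W := fun p => valB p.2) (UPoly.length (Poly.fst Poly.id)) (Poly.valBits (Poly.snd Poly.id))
  · simp only [codes, Polynomial.eval_mul, Polynomial.eval_C, Polynomial.eval_pow,
      Polynomial.eval_X]

end Pool.Agent.Helper785.SP
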