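import Pool.Agent.Helper785_SP.PolyV
import Pool.Agent.Helper785_SP.Frame

/-!
# The verifier for block gluing shifts runs in polynomial time
-/

set_option autoImplicit false

namespace Pool.Agent.Helper785.SP

open Pool.Agent.Helper785.SIEnt
open Pool.Agent.Helper785.BG (dg poly_pow)
open Pool.Agent.NPC

section

variable {β : Type} [TEnc β]

theorem poly_boundedN (B : ℕ) (ψ : ℕ → ℕ) {g : β → ℕ} (hg : Poly g) (hB : ∀ b, g b < B) :
    Poly (fun b => ψ (g b)) := by
  refine (Poly.getD (l := fun _ : β => (List.range B).map ψ) (n := g) (d := fun _ => 0)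
    (NPC.Poly.const _) hg (NPC.Poly.const 0)).congr (fun b => ?_)
  rw [List.getD_eq_getElem?_getD, List.getElem?_map, List.getElem?_range (hB b)]
  rfl

variable {A : Type} {k : ℕ}

theorem poly_free (M S : ℕ) {n i j : β → ℕ} (hn : Poly n) (hi : Poly i) (hj : Poly j) :
    Poly (fun b => decide (Free M S (n b) (i b) (j b))) := by
  refine (Poly.decide_or (p := fun b => S ≤ i b ∧ i b + S < n b)
    (q := fun b => j b < M ∨ n b ≤ j b + M)
    (Poly.decide_and (p := fun b => S ≤ i b) (q := fun b => i b + S < n b)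
      (Poly.decide_le (NPC.Poly.const _) hi) (Poly.decide_lt (Poly.add hi (NPC.Poly.const _)) hn))
    (Poly.decide_or (p := fun b => j b < M) (q := fun b => n b ≤ j b + M)
      (Poly.decide_lt hj (NPC.Poly.const _))
      (Poly.decide_le hn (Poly.add hj (NPC.Poly.const _))))).congr (fun b => ?_)
  exact decide_eq_decide.2 Iff.rfl

theorem poly_good2 (L : List (Pattern 2 A)) (e : A ≃ Fin k) (x0 : (Fin 2 → ℤ) → A) {P0 : ℕ}
    (hP0 : 1 ≤ P0) (R M S : ℕ) {n W : β → ℕ} (hn : UPoly n) (hW : Poly W) :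
    Poly (fun b => good2 L e x0 P0 R M S (n b) (W b)) := by
  unfold good2
  have hb : Poly (fun p : β × ℕ => p.1) := Poly.fst Poly.id
  have hn' : UPoly (fun p : β × ℕ => n p.1) := hn.comp hb
  have hq : Poly (fun p : β × ℕ => p.2) := Poly.snd Poly.id
  have hdW : Poly (fun p : β × ℕ => dg (2 ^ k) (W p.1) (min p.2 (n p.1 ^ 2))) :=
    poly_dgW (2 ^ k) (m := fun p : β × ℕ => n p.1 ^ 2)
      (W := fun p => W p.1) (q := fun p => p.2)
      (upoly_pow (n := fun p : β × ℕ => n p.1) hn' 2) (hW.comp hb) hq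
  refine Poly.and ?_ (Poly.and ?_ ?_)
  · have h1 : Poly (fun b => (List.range (n b ^ 2)).all (fun q =>
        decide (dg (2 ^ k) (W b) (min q (n b ^ 2)) < k))) := by
      refine Poly.all (p := fun b q => decide (dg (2 ^ k) (W b) (min q (n b ^ 2)) < k))
        (upoly_pow hn 2).range ?_
      exact Poly.decide_lt hdW (NPC.Poly.const k)
    refine h1.congr (fun b => ?_)
    rw [Bool.eq_iff_iff]
    simp only [List.all_eq_true, List.mem_range, decide_eq_true_eq]
    refine forall₂_congr (fun q hq => ?_)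
    rw [min_eq_left hq.le]
  · have h1 : Poly (fun b => (List.range (n b ^ 2)).all (fun q =>
        decide (Free M S (n b) (dg (n b) q 0) (dg (n b) q 1)) ||
          decide (dg (2 ^ k) (W b) (min q (n b ^ 2)) =
            xdig e x0 P0 (idx P0 (fun i : Fin 2 => dg (n b) q i % P0))))) := by
      refine Poly.all (p := fun b q => decide (Free M S (n b) (dg (n b) q 0) (dg (n b) q 1)) ||
          decide (dg (2 ^ k) (W b) (min q (n b ^ 2)) =
            xdig e x0 P0 (idx P0 (fun i : Fin 2 => dg (n b) q i % P0))))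
        (upoly_pow hn 2).range ?_
      refine Poly.or (poly_free M S hn'.toPoly (poly_dgn hn' hq 0) (poly_dgn hn' hq 1)) ?_
      refine Poly.decide_eq hdW ?_
      exact poly_boundedN (P0 ^ 2) (xdig e x0 P0)
        (g := fun p : β × ℕ => idx P0 (fun i : Fin 2 => dg (n p.1) p.2 i % P0))
        (poly_idx (UPoly.const P0) (t := fun (i : Fin 2) (p : β × ℕ) => dg (n p.1) p.2 i % P0)
          (fun i => Poly.mod (poly_dgn hn' hq i) (NPC.Poly.const _)))
        (fun b => idx_lt _ (fun i => Nat.mod_lt _ hP0))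
    refine h1.congr (fun b => ?_)
    rw [Bool.eq_iff_iff]
    simp only [List.all_eq_true, List.mem_range]
    refine forall₂_congr (fun q hq => ?_)
    rw [min_eq_left hq.le]
    rfl
  · refine poly_all_const L (fun P b => (List.range ((n b + 2 * R) ^ 2)).all (fun q =>
      (! decide (2 * R ≤ dg (n b + 2 * R) q 0 ∧ dg (n b + 2 * R) q 0 < n b)) ||
      ! P.supp.toList.all (fun s =>
        tst e x0 P0 R (n b) (W b) (fun i => dg (n b + 2 * R) q i) s (P.val s)))) (fun P _ => ?_)
    have hm : UPoly (fun p : β × ℕ => n p.1 + 2 * R) := UPoly.add hn' (UPoly.const _)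
    refine Poly.all (p := fun b q =>
      (! decide (2 * R ≤ dg (n b + 2 * R) q 0 ∧ dg (n b + 2 * R) q 0 < n b)) ||
      ! P.supp.toList.all (fun s =>
        tst e x0 P0 R (n b) (W b) (fun i => dg (n b + 2 * R) q i) s (P.val s)))
      (upoly_pow (UPoly.add hn (UPoly.const _)) 2).range ?_
    refine Poly.or (Poly.not (Poly.decide_and
      (p := fun p : β × ℕ => 2 * R ≤ dg (n p.1 + 2 * R) p.2 0)
      (q := fun p : β × ℕ => dg (n p.1 + 2 * R) p.2 0 < n p.1)
      (Poly.decide_le (NPC.Poly.const _) (poly_dgn hm hq 0))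
      (Poly.decide_lt (poly_dgn hm hq 0) hn'.toPoly))) ?_
    refine Poly.not (poly_all_const P.supp.toList (fun s (p : β × ℕ) =>
        tst e x0 P0 R (n p.1) (W p.1) (fun i => dg (n p.1 + 2 * R) p.2 i) s (P.val s))
      (fun s _ => ?_))
    exact poly_tst e x0 hP0 R (n := fun p : β × ℕ => n p.1) (W := fun p => W p.1)
      (u := fun i p => dg (n p.1 + 2 * R) p.2 i) hn' (hW.comp hb)
      (fun i => poly_dgn (n := fun p : β × ℕ => n p.1 + 2 * R) hm hq i) s (P.val s)

end

variable {A : Type} {k : ℕ}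

/-- The numbers of codes form a function in `#P`. -/
theorem sharpP_codes2 (L : List (Pattern 2 A)) (e : A ≃ Fin k) (x0 : (Fin 2 → ℤ) → A) {P0 : ℕ}
    (hP0 : 1 ≤ P0) (R M S : ℕ) :
    Cnt.SharpP (fun x => codes2 L e x0 P0 R M S x.length) := by
  refine Cnt.sharpP_of_poly (fun p => good2 L e x0 P0 R M S p.1.length (valB p.2)) ?_
    (Polynomial.C k * Polynomial.X ^ 2) (fun x => ?_)
  · exact poly_good2 L e x0 hP0 R M S (n := fun p : List Bool × List Bool => p.1.length)
      (W := fun p => valB p.2) (UPoly.length (Poly.fst Poly.id)) (Poly.valBits (Poly.snd Poly.id))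
  · simp only [codes2, Polynomial.eval_mul, Polynomial.eval_C, Polynomial.eval_pow,
      Polynomial.eval_X]

end Pool.Agent.Helper785.SP
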