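import Pool.Agent.Helper785_SP.PolyV
import Pool.Agent.Helper785_BG.Final

/-!
# From a `#P` formula to approximations in `FP^#P`
-/

set_option autoImplicit false

namespace Pool.Agent.Helper785.SP

open Pool.Agent.NPC
open Pool.Agent.NPC.Cnt (SharpP TuringReduces InFPSharpP)

theorem sharpP_size {f : List Bool → ℕ} (hf : SharpP f) :
    ∃ r : Polynomial ℕ, ∀ x, (f x).size ≤ r.eval x.length := by
  obtain ⟨V, p, _, hf⟩ := hf
  refine ⟨p + 1, fun x => ?_⟩
  have h1 : f x ≤ 2 ^ p.eval x.length := by
    rw [hf x]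
    have h2 := Nat.card_le_card_of_injective
      (α := {w : List Bool // w.length = p.eval x.length ∧ V (pairBits x w) = [true]})
      (β := Fin (2 ^ p.eval x.length))
      (fun w => ⟨valB w.1, by have := valB_lt w.1; rwa [w.2.1] at this⟩) (by
        intro w w' h
        apply Subtype.ext
        exact valB_inj _ _ (w.2.1.trans w'.2.1.symm) (congrArg Fin.val h))
    rwa [Nat.card_fin] at h2
  rw [Polynomial.eval_add, Polynomial.eval_one, Nat.size_le]
  exact h1.trans_lt (Nat.pow_lt_pow_right (by norm_num) (by omega))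

/-- A polynomial-time computation with one query. -/
theorem reduces_one {f : List Bool → ℕ} (hf : SharpP f) (qs : List Bool → List Bool)
    (post : List Bool × ℕ → ℕ) (hqs : Poly qs) (hpost : Poly post) :
    InFPSharpP (fun x => post (x, f (qs x))) := by
  refine ⟨f, hf, ?_⟩
  obtain ⟨r, hr⟩ := sharpP_size hf
  let next : List Bool × List ℕ → List Bool ⊕ ℕ := fun s =>
    match (s.2)[0]? with
    | none => Sum.inl (qs s.1)
    | some a => Sum.inr (post (s.1, a))
  have hnext : Poly next := by
    refine (Poly.optCases (o := fun s : List Bool × List ℕ => (s.2)[0]?)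
      (g := fun s => (Sum.inl (qs s.1) : List Bool ⊕ ℕ))
      (h := fun s a => (Sum.inr (post (s.1, a)) : List Bool ⊕ ℕ))
      (Poly.getElem? (Poly.snd Poly.id) (NPC.Poly.const 0))
      (Poly.inl (hqs.comp (Poly.fst Poly.id)))
      (Poly.inr (hpost.comp (Poly.pair (Poly.fst (Poly.fst Poly.id)) (Poly.snd Poly.id))))).congr ?_
    intro s
    simp only [next]
    cases (s.2)[0]? <;> rfl
  obtain ⟨c1, hc1⟩ := hqs.sz_le
  have hdec : Poly (fun s : List Bool =>
      ((Cnt.decode s).getD ([], []) : List Bool × List ℕ)) :=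
    (Poly.optCases (o := fun s : List Bool => (Cnt.decode s : Option (List Bool × List ℕ)))
      (g := fun _ => ([], [])) (h := fun _ b => b) Cnt.poly_decode (NPC.Poly.const _)
      (Poly.snd Poly.id)).congr fun s => by
        cases (Cnt.decode s : Option (List Bool × List ℕ)) <;> rfl
  refine ⟨next, fun s => bits (next ((Cnt.decode s).getD ([], []))),
    c1.comp (Polynomial.C 4 * Polynomial.X + Polynomial.C 1) +
      r.comp (c1.comp (Polynomial.C 4 * Polynomial.X + Polynomial.C 1)) + 1, ?_, ?_, ?_⟩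
  · apply PC.toPolyTime
    have h0 : Poly (fun s : List Bool => next ((Cnt.decode s).getD ([], []))) :=
      Poly.comp (g := next) (f := fun s : List Bool =>
        ((Cnt.decode s).getD ([], []) : List Bool × List ℕ)) hnext hdec
    exact PC.comp (g := fun s : List Bool => next ((Cnt.decode s).getD ([], [])))
      (f := fun s : List Bool => s) h0 PC.ofBits
  · intro s
    have : Cnt.decode (bits s) = some s := Cnt.decode_eq_some.2 rfl
    simp only [this, Option.getD_some]
  · intro x
    have hsx : sz x ≤ 4 * x.length + 1 := sz_listBool_le x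
    have e1 : (c1.comp (Polynomial.C 4 * Polynomial.X + Polynomial.C 1)).eval x.length =
        c1.eval (4 * x.length + 1) := by
      simp [Polynomial.eval_comp]
    have e2 : (r.comp (c1.comp (Polynomial.C 4 * Polynomial.X + Polynomial.C 1))).eval x.length =
        r.eval (c1.eval (4 * x.length + 1)) := by
      simp [Polynomial.eval_comp]
    have h1 : sz (qs x) ≤ c1.eval (4 * x.length + 1) := (hc1 x).trans (eval_mono c1 hsx)
    have h2 := length_lt_sz (qs x)
    refine ⟨[f (qs x)], ?_, ?_, ?_⟩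
    · rw [Polynomial.eval_add, Polynomial.eval_one]
      simp
    · intro i hi
      have hi0 : i = 0 := by simpa using hi
      subst hi0
      refine ⟨qs x, ?_, ?_, ?_, ?_⟩
      · simp [next]
      · rw [Polynomial.eval_add, Polynomial.eval_add, e1, e2, Polynomial.eval_one]
        omega
      · simp
      · rw [Polynomial.eval_add, Polynomial.eval_add, e1, e2, Polynomial.eval_one]
        have h3 := hr (qs x)
        have h4 := eval_mono r (h2.le.trans h1)
        omega
    · simp [next]

/-- The final rounding step. -/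
def post (c d : ℕ) (p : List Bool × ℕ) : ℕ :=
  (2 * (p.1.length * (p.2.size * BG.lnum (c * p.1.length))) +
    (c * p.1.length) ^ (d + 2)) / (2 * (c * p.1.length) ^ (d + 2))

theorem poly_lnum {β : Type} [TEnc β] {n : β → ℕ} (hn : UPoly n) :
    Poly (fun b => BG.lnum (n b)) := by
  have h3 : Poly (fun b => ((List.range (n b)).map
      (fun j => n b * n b / (n b + j + 1))).sum) := by
    refine NPC.Poly.sum (NPC.Poly.map (F := fun b j => n b * n b / (n b + j + 1)) hn.range ?_)
    have hT' : Poly (fun p : β × ℕ => n p.1) := hn.toPoly.comp (NPC.Poly.fst NPC.Poly.id)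
    exact NPC.Poly.div (NPC.Poly.mul hT' hT')
      (NPC.Poly.succ (NPC.Poly.add hT' (NPC.Poly.snd NPC.Poly.id)))
  refine h3.congr (fun b => ?_)
  unfold BG.lnum
  rw [BG.sum_map_range]

theorem poly_post (c d : ℕ) : Poly (post c d) := by
  have hl : UPoly (fun p : List Bool × ℕ => p.1.length) := UPoly.length (Poly.fst Poly.id)
  have hN : UPoly (fun p : List Bool × ℕ => c * p.1.length) := UPoly.mul (UPoly.const c) hl
  have hs : Poly (fun p : List Bool × ℕ => p.2.size) :=
    (NPC.Poly.length (NPC.Poly.natBits (Poly.snd (Poly.id (α := List Bool × ℕ))))).congr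
      (fun p => by rw [Nat.size_eq_bits_len])
  have hD := (upoly_pow hN (d + 2)).toPoly
  exact NPC.Poly.div (NPC.Poly.add (NPC.Poly.mul (NPC.Poly.const 2)
    (NPC.Poly.mul hl.toPoly (NPC.Poly.mul hs (poly_lnum hN)))) hD)
    (NPC.Poly.mul (NPC.Poly.const 2) hD)

/-- `h` is given, up to `O(1/n)`, by the logarithms of the values on `1^n` of a function in
`#P`. -/
def SharpPFormula (d : ℕ) (h : ℝ) : Prop :=
  ∃ f : List Bool → ℕ, SharpP f ∧ ∃ C : ℝ, ∀ n : ℕ, 1 ≤ n →
    0 < f (List.replicate n true) ∧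
      |h - Real.log (f (List.replicate n true)) / (n : ℝ) ^ d| ≤ C / n

/-- `h` can be approximated within `1/n` in polynomial time with an oracle in `#P`. -/
def SharpPApprox (h : ℝ) : Prop :=
  ∃ g : List Bool → ℕ, InFPSharpP g ∧ ∀ n : ℕ, 1 ≤ n →
    |h - (g (List.replicate n true) : ℝ) / n| < 1 / n

theorem approx_of_formula {d : ℕ} (hd : 1 ≤ d) {h : ℝ} (h0 : 0 ≤ h)
    (hf : SharpPFormula d h) : SharpPApprox h := by
  obtain ⟨f, hf, C, hC⟩ := hf
  have hC0 : 0 ≤ C := by
    have := (abs_nonneg _).trans (hC 1 le_rfl).2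
    simpa using this
  set C' : ℝ := C + 1 + 4 * (h + C + 1) with hC'
  have hC'0 : 0 < C' := by positivity
  have key : ∀ N : ℕ, 1 ≤ N → |h - ((f (List.replicate N true)).size : ℝ) * (BG.lnum N) /
      (N : ℝ) ^ (d + 2)| ≤ C' / N := by
    intro N hN
    obtain ⟨h1, h2⟩ := hC N hN
    have hN0 : (0 : ℝ) < N := by exact_mod_cast hN
    have hN1 : (1 : ℝ) ≤ N := by exact_mod_cast hN
    have hNd : (0 : ℝ) < (N : ℝ) ^ d := by positivity
    have hNd1 : (N : ℝ) ≤ (N : ℝ) ^ d := le_self_pow₀ hN1 (by omega)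
    obtain ⟨h3, h4⟩ := BG.size_bounds h1
    obtain ⟨h5, h6⟩ := BG.log_two_bounds
    have h7 := BG.lnum_bounds N (by omega)
    set a : ℝ := Real.log (f (List.replicate N true)) with ha
    set S : ℝ := ((f (List.replicate N true)).size : ℝ) with hS
    set l : ℝ := (BG.lnum N : ℝ) / (N * N) with hl
    have hS0 : 0 ≤ S := by positivity
    have e1 : S * (BG.lnum N) / (N : ℝ) ^ (d + 2) = S * l / (N : ℝ) ^ d := by
      rw [hl, pow_add]; field_simp
    rw [e1]
    have ha1 : a ≤ (h + C) * (N : ℝ) ^ d := by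
      have h8 := (abs_le.1 h2).1
      have h9 : C / N ≤ C := div_le_self hC0 hN1
      have h10 : a / (N : ℝ) ^ d ≤ h + C := by linarith
      rwa [div_le_iff₀ hNd] at h10
    have hS1 : S ≤ 2 * (h + C + 1) * (N : ℝ) ^ d := by
      have h8 : S * (1 / 2) ≤ S * Real.log 2 := by gcongr
      have h9 : (1 : ℝ) ≤ (N : ℝ) ^ d := hN1.trans hNd1
      nlinarith
    have h8 : |a - S * l| ≤ 1 + 4 * (h + C + 1) * (N : ℝ) ^ d / N := by
      have e2 : a - S * l = (a - S * Real.log 2) + S * (Real.log 2 - l) := by ring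
      rw [e2]
      refine (abs_add_le _ _).trans (add_le_add ?_ ?_)
      · rw [abs_le]; constructor <;> linarith
      · rw [abs_mul, abs_of_nonneg hS0, abs_sub_comm]
        calc S * |l - Real.log 2| ≤ (2 * (h + C + 1) * (N : ℝ) ^ d) * (2 / N) := by gcongr
          _ = 4 * (h + C + 1) * (N : ℝ) ^ d / N := by ring
    have e3 : h - S * l / (N : ℝ) ^ d = (h - a / (N : ℝ) ^ d) + (a - S * l) / (N : ℝ) ^ d := by
      field_simp; ring
    rw [e3]
    refine (abs_add_le _ _).trans ?_
    rw [abs_div, abs_of_pos hNd]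
    have h9 : |a - S * l| / (N : ℝ) ^ d ≤ (1 + 4 * (h + C + 1)) / N := by
      rw [div_le_div_iff₀ hNd hN0]
      calc |a - S * l| * N ≤ (1 + 4 * (h + C + 1) * (N : ℝ) ^ d / N) * N := by gcongr
        _ = N + 4 * (h + C + 1) * (N : ℝ) ^ d := by field_simp
        _ ≤ (1 + 4 * (h + C + 1)) * (N : ℝ) ^ d := by linarith
    calc _ ≤ C / N + (1 + 4 * (h + C + 1)) / N := add_le_add h2 h9
      _ = C' / N := by rw [hC']; ring
  obtain ⟨c, hc⟩ := exists_nat_gt (2 * C')
  have hc0 : (0 : ℝ) < c := by linarith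
  refine ⟨fun x => post c d (x, f (List.replicate (c * x.length) true)),
    reduces_one hf (fun x => List.replicate (c * x.length) true) (post c d)
      (BG.poly_replicate (UPoly.mul (UPoly.const c) (UPoly.length Poly.id))) (poly_post c d),
    fun n hn => ?_⟩
  have hn0 : (0 : ℝ) < n := by exact_mod_cast hn
  have hcn : 1 ≤ c * n := Nat.mul_pos (by exact_mod_cast hc0) hn
  have h1 := key (c * n) hcn
  simp only [List.length_replicate, post]
  set S : ℕ := (f (List.replicate (c * n) true)).size with hS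
  set l : ℕ := BG.lnum (c * n) with hl
  set D : ℕ := (c * n) ^ (d + 2) with hD
  have hDpos : 0 < D := by rw [hD]; exact Nat.pow_pos hcn
  have hD0 : (0 : ℝ) < D := by exact_mod_cast hDpos
  set G : ℕ := (2 * (n * (S * l)) + D) / (2 * D) with hG
  have e1 : ((c * n : ℕ) : ℝ) ^ (d + 2) = D := by rw [hD]; push_cast; ring
  rw [e1] at h1
  have h2 : (2 * D) * G ≤ 2 * (n * (S * l)) + D := Nat.mul_div_le _ _
  have h3 : 2 * (n * (S * l)) + D < (2 * D) * (G + 1) := Nat.lt_mul_div_succ _ (by omega)
  have h2' : (2 * (D : ℝ)) * G ≤ 2 * (n * (S * l)) + D := by exact_mod_cast h2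
  have h3' : 2 * ((n : ℝ) * (S * l)) + D < (2 * D) * (G + 1) := by exact_mod_cast h3
  set y : ℝ := (S : ℝ) * l / D with hy
  have hyD : y * D = S * l := by rw [hy]; field_simp
  have h4 : |(n : ℝ) * y - G| ≤ 1 / 2 := by
    rw [abs_le]
    rw [← hyD] at h2' h3'
    constructor
    · have : (2 * (D : ℝ)) * G ≤ (2 * D) * (n * y + 1 / 2) := by linarith
      have := le_of_mul_le_mul_left this (by positivity)
      linarith
    · have : (2 * (D : ℝ)) * (n * y + 1 / 2) ≤ (2 * D) * (G + 1) := by linarith
      have := le_of_mul_le_mul_left this (by positivity)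
      linarith
  have h5 : |(n : ℝ) * h - n * y| < 1 / 2 := by
    rw [← mul_sub, abs_mul, abs_of_pos hn0]
    calc (n : ℝ) * |h - y| ≤ n * (C' / ((c * n : ℕ) : ℝ)) := by gcongr
      _ = C' / c := by push_cast; field_simp
      _ < 1 / 2 := by
        rw [div_lt_div_iff₀ hc0 (by norm_num)]
        linarith
  have h6 : |(n : ℝ) * h - G| < 1 := by
    have : (n : ℝ) * h - G = (n * h - n * y) + (n * y - G) := by ring
    rw [this]
    refine (abs_add_le _ _).trans_lt ?_
    linarith
  have h7 : h - (G : ℝ) / n = (n * h - G) / n := by field_simp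
  rw [h7, abs_div, abs_of_pos hn0]
  gcongr

end Pool.Agent.Helper785.SP
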